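import Pool.Agent.H579.Q.MainP

set_option autoImplicit false

/-! From the primes to the von Mangoldt function. -/

namespace Pool.Agent.H579.Q

open Finset
open Pool.Agent.Y614.GJ.Core (P ev_log)
open Pool.Agent.H579.L

/-- the proper prime powers are negligible -/
lemma lam_th {ε : ℝ} (hε : 0 < ε) : ∃ Y₀ : ℕ, ∀ Y : ℕ, Y₀ ≤ Y →
    ∑ m ∈ Icc 1 Y, (ArithmeticFunction.vonMangoldt m - th m) ≤ ε * Y := by
  obtain ⟨N₁, h1⟩ := Filter.eventually_atTop.1 (ev_log 1 (s := 1 / 4) (by norm_num) 1)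
  obtain ⟨N₂, h2⟩ := ev_rpow (s := 1 / 4) (by norm_num) (2 / ε)
  refine ⟨max N₁ (max N₂ 1), fun Y hY => ?_⟩
  obtain ⟨-, hL⟩ := h1 Y (le_trans (le_max_left _ _) hY)
  have hε2 := h2 Y (le_trans (le_trans (le_max_left _ _) (le_max_right _ _)) hY)
  have hY1 : 1 ≤ Y := le_trans (le_trans (le_max_right _ _) (le_max_right _ _)) hY
  have hY0 : (0 : ℝ) < Y := by exact_mod_cast hY1
  rw [pow_one] at hL
  have h3 := Chebyshev.psi_sub_theta_le (x := (Y : ℝ)) (by exact_mod_cast hY1)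
  have h4 : ∑ m ∈ Icc 1 Y, (ArithmeticFunction.vonMangoldt m - th m) = Chebyshev.psi Y - Chebyshev.theta Y := by
    rw [sum_sub_distrib, Chebyshev.psi, Chebyshev.theta, Nat.floor_natCast]
    have e1 : Icc 1 Y = Ioc 0 Y := by ext; simp [Nat.lt_iff_add_one_le]
    rw [e1, sum_filter]
    congr 1
  rw [h4]
  refine h3.trans ?_
  have h5 : (Y : ℝ) = Real.sqrt Y * ((Y : ℝ) ^ (1 / 4 : ℝ) * (Y : ℝ) ^ (1 / 4 : ℝ)) := by
    rw [Real.sqrt_eq_rpow, ← Real.rpow_add hY0, ← Real.rpow_add hY0]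
    norm_num
  have h6 : 2 ≤ ε * (Y : ℝ) ^ (1 / 4 : ℝ) := by
    rw [div_le_iff₀ hε] at hε2
    linarith
  calc 2 * Real.sqrt Y * Real.log Y ≤ 2 * Real.sqrt Y * (Y : ℝ) ^ (1 / 4 : ℝ) := by gcongr
    _ = 2 * (Real.sqrt Y * (Y : ℝ) ^ (1 / 4 : ℝ)) := by ring
    _ ≤ (ε * (Y : ℝ) ^ (1 / 4 : ℝ)) * (Real.sqrt Y * (Y : ℝ) ^ (1 / 4 : ℝ)) := by gcongr
    _ = ε * (Real.sqrt Y * ((Y : ℝ) ^ (1 / 4 : ℝ) * (Y : ℝ) ^ (1 / 4 : ℝ))) := by ring
    _ = ε * Y := by rw [← h5]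

/-- the passage to the von Mangoldt function, for one sum -/
lemma lam_sum {g : ℕ → ℂ} (hg : ∀ n, ‖g n‖ ≤ 1) {w : ℕ → ℂ} (hw : ∀ n, ‖w n‖ ≤ 1) (y Y : ℕ) (hy : y ≤ Y) (f : ℕ → ℕ) :
    ‖∑ m ∈ Icc 1 y, w m * (ArithmeticFunction.vonMangoldt m : ℝ) * g (f m)‖ ≤
      ‖∑ m ∈ Icc 1 y, w m * th m * g (f m)‖ + ∑ m ∈ Icc 1 Y, (ArithmeticFunction.vonMangoldt m - th m) := by
  have h1 : ∑ m ∈ Icc 1 y, w m * (ArithmeticFunction.vonMangoldt m : ℝ) * g (f m) =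
      ∑ m ∈ Icc 1 y, w m * th m * g (f m) +
      ∑ m ∈ Icc 1 y, w m * ((ArithmeticFunction.vonMangoldt m - th m : ℝ) : ℂ) * g (f m) := by
    rw [← sum_add_distrib]
    refine sum_congr rfl fun m _ => ?_
    push_cast
    ring
  rw [h1]
  refine (norm_add_le _ _).trans (add_le_add le_rfl ?_)
  have h2 : ∀ m, 0 ≤ ArithmeticFunction.vonMangoldt m - th m := fun m => sub_nonneg.2 (th_le m)
  calc ‖∑ m ∈ Icc 1 y, w m * ((ArithmeticFunction.vonMangoldt m - th m : ℝ) : ℂ) * g (f m)‖ ≤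
      ∑ m ∈ Icc 1 y, (ArithmeticFunction.vonMangoldt m - th m) := by
        refine (norm_sum_le _ _).trans (sum_le_sum fun m _ => ?_)
        rw [norm_mul, norm_mul, Complex.norm_real, Real.norm_of_nonneg (h2 m)]
        calc ‖w m‖ * (ArithmeticFunction.vonMangoldt m - th m) * ‖g (f m)‖ ≤
            1 * (ArithmeticFunction.vonMangoldt m - th m) * 1 := by
              have := h2 m
              gcongr
              · exact hw m
              · exact hg _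
          _ = _ := by ring
    _ ≤ _ := sum_le_sum_of_subset_of_nonneg (Icc_subset_Icc le_rfl hy) fun m _ _ => h2 m

end Pool.Agent.H579.Q
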