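import Pool.Agent.H579.Q.Pw2
import Pool.Agent.H579.L.Main

set_option autoImplicit false

/-! Shifts in a residue class, and linear forms with a large coefficient, at the primes. -/

namespace Pool.Agent.H579.Q

open Finset
open Pool.Agent.Y614.GJ.Core (P ev_log)
open Pool.Agent.H373R2.T7 (liR lam_ap)
open Pool.Agent.H579.L

/-- the logarithm at the primes -/
noncomputable def th (m : ℕ) : ℝ := if m.Prime then Real.log m else 0

lemma th_nonneg (m : ℕ) : 0 ≤ th m := by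
  unfold th
  split_ifs with h
  · exact Real.log_nonneg (by exact_mod_cast h.one_lt.le)
  · exact le_rfl

lemma th_le (m : ℕ) : th m ≤ ArithmeticFunction.vonMangoldt m := by
  unfold th
  split_ifs with h
  · rw [ArithmeticFunction.vonMangoldt_apply_prime h]
  · exact ArithmeticFunction.vonMangoldt_nonneg

/-- the primes in an interval -/
lemma th_short {ε : ℝ} (hε : 0 < ε) : ∃ Y₀ : ℕ, ∀ Y : ℕ, Y₀ ≤ Y → ∀ y' y : ℕ, y' ≤ y → y ≤ Y →
    ∑ m ∈ Ioc y' y, th m ≤ ((y - y' : ℕ) : ℝ) + ε * Y := by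
  obtain ⟨N₁, h1⟩ := lam_ap 1 1
  obtain ⟨N₂, h2⟩ := Filter.eventually_atTop.1 (ev_log 1 (s := 1) (by norm_num) (1 + 2 / ε))
  refine ⟨max N₁ (max N₂ 1), fun Y hY y' y hy' hy => ?_⟩
  have hY1 : N₁ ≤ Y := le_trans (le_max_left _ _) hY
  obtain ⟨hL, -⟩ := h2 Y (le_trans (le_trans (le_max_left _ _) (le_max_right _ _)) hY)
  have hY0 : (0 : ℝ) ≤ Y := Nat.cast_nonneg _
  have hε2 : 0 < 2 / ε := by positivity
  have hL0 : 0 < Real.log Y := by linarith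
  have key : ∀ z : ℕ, z ≤ Y → |∑ n ∈ Icc 1 z, ArithmeticFunction.vonMangoldt n - z| ≤ Y / Real.log Y := by
    intro z hz
    have h3 := h1 Y hY1 1 le_rfl (by rw [pow_one]; push_cast; linarith) 0 z hz
    rw [if_pos (Nat.coprime_one_right 0), Nat.totient_one, Nat.cast_one, div_one, pow_one] at h3
    have h4 : (Icc 1 z).filter (fun n => n ≡ 0 [MOD 1]) = Icc 1 z :=
      filter_true_of_mem fun n _ => Nat.modEq_one
    rwa [h4] at h3
  have e1 : ∀ z : ℕ, Icc 1 z = Ioc 0 z := fun z => by ext; simp [Nat.lt_iff_add_one_le]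
  have k1 := key y hy
  have k2 := key y' (hy'.trans hy)
  rw [e1] at k1 k2
  have h5 : ∑ n ∈ Ioc 0 y, ArithmeticFunction.vonMangoldt n = ∑ n ∈ Ioc 0 y', ArithmeticFunction.vonMangoldt n +
      ∑ n ∈ Ioc y' y, ArithmeticFunction.vonMangoldt n :=
    (sum_Ioc_consecutive _ (Nat.zero_le _) hy').symm
  have h6 : ∑ m ∈ Ioc y' y, th m ≤ ∑ n ∈ Ioc y' y, ArithmeticFunction.vonMangoldt n := sum_le_sum fun m _ => th_le m
  rw [Nat.cast_sub hy']
  rw [abs_le] at k1 k2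
  have h7 : (Y : ℝ) / Real.log Y ≤ ε / 2 * Y := by
    rw [div_le_iff₀ hL0]
    have : 2 / ε * (ε / 2 * Y) = Y := by field_simp
    have h8 : 0 ≤ ε / 2 * Y := by positivity
    nlinarith
  linarith

/-- a large sum with `g` gives a large sum with `ω g` at a point of the grid -/
lemma grid_badP {g : ℕ → ℂ} (hg : Cm g) {N q q₁ h s y Y : ℕ} {κ₁ κ₂ ε : ℝ} {w : ℕ → ℂ} (hw : ∀ n, ‖w n‖ ≤ 1)
    (hq₁ : 1 ≤ q₁) (hε : 0 < ε) (hε1 : ε ≤ 1)
    (hW : (24 / ε) ^ 2 ≤ ∑ p ∈ Sp N κ₁ κ₂ q, (1 : ℝ) / p)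
    (htk : ∑ m ∈ (Icc 1 Y).filter Nat.Prime, Real.log m *
      |((((Sp N κ₁ κ₂ q).filter (fun p => p ∣ q₁ * m + h)).card : ℕ) : ℝ) - ∑ p ∈ Sp N κ₁ κ₂ q, (1 : ℝ) / p| ≤
        6 * Y * Real.sqrt (∑ p ∈ Sp N κ₁ κ₂ q, (1 : ℝ) / p))
    (hshort : ∀ y' y : ℕ, y' ≤ y → y ≤ Y → ∑ m ∈ Ioc y' y, th m ≤ ((y - y' : ℕ) : ℝ) + ε / 8 * Y)
    (hs0 : 1 ≤ s) (hs : (s : ℝ) ≤ ε * Y / 8) (hyY : y ≤ Y)
    (hbad : ε * Y < ‖∑ m ∈ Icc 1 y, w m * th m * g (q₁ * m + h)‖) :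
    (Y : ℝ) ≤ ‖∑ m ∈ Icc 1 (s * (y / s)), w m * th m * cnv (ap N κ₁ κ₂ g q) g (q₁ * m + h)‖ := by
  obtain ⟨y', hy'⟩ : ∃ y', y' = s * (y / s) := ⟨_, rfl⟩
  have hy'y : y' ≤ y := by
    rw [hy']
    exact Nat.mul_div_le _ _
  have hyy' : y < y' + s := by
    rw [hy']
    have := Nat.lt_mul_div_succ y (show 0 < s by omega)
    linarith
  have hY0 : (0 : ℝ) ≤ Y := Nat.cast_nonneg Y
  obtain ⟨W, hWd⟩ : ∃ W, W = ∑ p ∈ Sp N κ₁ κ₂ q, (1 : ℝ) / p := ⟨_, rfl⟩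
  rw [← hWd] at hW htk
  have h24 : 24 ≤ 24 / ε := by
    rw [le_div_iff₀ hε]
    linarith
  have hW576 : 576 ≤ W := by nlinarith
  rw [← hy']
  have hth : ∀ m : ℕ, ‖w m * th m‖ ≤ th m := by
    intro m
    rw [norm_mul, Complex.norm_real, Real.norm_of_nonneg (th_nonneg m)]
    exact mul_le_of_le_one_left (th_nonneg m) (hw m)
  -- from `y` to `y'`
  have h1 : ‖∑ m ∈ Icc 1 y, w m * th m * g (q₁ * m + h)‖ ≤
      ‖∑ m ∈ Icc 1 y', w m * th m * g (q₁ * m + h)‖ + (s + ε / 8 * Y) := by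
    have h2 : ∑ m ∈ Icc 1 y, w m * th m * g (q₁ * m + h) = ∑ m ∈ Icc 1 y', w m * th m * g (q₁ * m + h) +
        ∑ m ∈ Ioc y' y, w m * th m * g (q₁ * m + h) := by
      have e1 : Icc 1 y = Ioc 0 y := by ext; simp [Nat.lt_iff_add_one_le]
      have e2 : Icc 1 y' = Ioc 0 y' := by ext; simp [Nat.lt_iff_add_one_le]
      rw [e1, e2]
      exact (sum_Ioc_consecutive _ (Nat.zero_le _) hy'y).symm
    rw [h2]
    refine (norm_add_le _ _).trans (add_le_add le_rfl ?_)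
    calc ‖∑ m ∈ Ioc y' y, w m * th m * g (q₁ * m + h)‖ ≤ ∑ m ∈ Ioc y' y, th m := by
          refine (norm_sum_le _ _).trans (sum_le_sum fun m _ => ?_)
          rw [norm_mul]
          exact (mul_le_of_le_one_right (norm_nonneg _) (hg.bd _)).trans (hth m)
      _ ≤ ((y - y' : ℕ) : ℝ) + ε / 8 * Y := hshort y' y hy'y hyY
      _ ≤ s + ε / 8 * Y := by
          have : y - y' ≤ s := by omega
          have : ((y - y' : ℕ) : ℝ) ≤ s := by exact_mod_cast this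
          linarith
  -- from `g` to `ω g`
  have h3 : W * ‖∑ m ∈ Icc 1 y', w m * th m * g (q₁ * m + h)‖ ≤
      ‖∑ m ∈ Icc 1 y', w m * th m * cnv (ap N κ₁ κ₂ g q) g (q₁ * m + h)‖ + 6 * Y * Real.sqrt W := by
    have e1 : (W : ℂ) * ∑ m ∈ Icc 1 y', w m * th m * g (q₁ * m + h) =
        ∑ m ∈ Icc 1 y', w m * th m * cnv (ap N κ₁ κ₂ g q) g (q₁ * m + h) -
        ∑ m ∈ Icc 1 y', w m * th m * g (q₁ * m + h) *
          (((((Sp N κ₁ κ₂ q).filter (fun p => p ∣ q₁ * m + h)).card : ℕ) : ℂ) - W) := by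
      rw [mul_sum, ← sum_sub_distrib]
      refine sum_congr rfl fun m hm => ?_
      rw [mem_Icc] at hm
      have : q₁ * m + h ≠ 0 := by
        have := Nat.mul_pos hq₁ hm.1
        omega
      rw [cnv_ap hg, om_eq this]
      ring
    have e2 : W * ‖∑ m ∈ Icc 1 y', w m * th m * g (q₁ * m + h)‖ =
        ‖(W : ℂ) * ∑ m ∈ Icc 1 y', w m * th m * g (q₁ * m + h)‖ := by
      rw [norm_mul, Complex.norm_real, Real.norm_of_nonneg (by linarith)]
    rw [e2, e1]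
    refine (norm_sub_le _ _).trans (add_le_add le_rfl ?_)
    refine le_trans ?_ htk
    have e4 : ∑ m ∈ Icc 1 y', th m * |((((Sp N κ₁ κ₂ q).filter (fun p => p ∣ q₁ * m + h)).card : ℕ) : ℝ) - W| ≤
        ∑ m ∈ Icc 1 Y, th m * |((((Sp N κ₁ κ₂ q).filter (fun p => p ∣ q₁ * m + h)).card : ℕ) : ℝ) - W| :=
      sum_le_sum_of_subset_of_nonneg (Icc_subset_Icc le_rfl (hy'y.trans hyY)) fun m _ _ =>
        mul_nonneg (th_nonneg m) (abs_nonneg _)
    have e5 : ∑ m ∈ Icc 1 Y, th m * |((((Sp N κ₁ κ₂ q).filter (fun p => p ∣ q₁ * m + h)).card : ℕ) : ℝ) - W| =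
        ∑ m ∈ (Icc 1 Y).filter Nat.Prime, Real.log m *
          |((((Sp N κ₁ κ₂ q).filter (fun p => p ∣ q₁ * m + h)).card : ℕ) : ℝ) - W| := by
      rw [sum_filter]
      refine sum_congr rfl fun m _ => ?_
      unfold th
      split_ifs <;> simp
    rw [← e5]
    refine le_trans ?_ e4
    refine (norm_sum_le _ _).trans (sum_le_sum fun m _ => ?_)
    rw [norm_mul]
    have e3 : ‖(((((Sp N κ₁ κ₂ q).filter (fun p => p ∣ q₁ * m + h)).card : ℕ) : ℂ) - W)‖ =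
        |((((Sp N κ₁ κ₂ q).filter (fun p => p ∣ q₁ * m + h)).card : ℕ) : ℝ) - W| := by
      rw [← Real.norm_eq_abs, ← Complex.norm_real]
      congr 1
      push_cast
      rfl
    rw [e3]
    refine mul_le_mul_of_nonneg_right ?_ (abs_nonneg _)
    rw [norm_mul]
    exact (mul_le_of_le_one_right (norm_nonneg _) (hg.bd _)).trans (hth m)
  have h5 : 6 * Real.sqrt W ≤ W * ε / 4 := by
    have h6 : 24 / ε ≤ Real.sqrt W := Real.le_sqrt_of_sq_le hW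
    rw [div_le_iff₀ hε] at h6
    have h7 : Real.sqrt W * Real.sqrt W = W := Real.mul_self_sqrt (by linarith)
    have h8 : 0 ≤ Real.sqrt W := Real.sqrt_nonneg _
    nlinarith
  have h6 : ε * Y * (3 / 4) ≤ ‖∑ m ∈ Icc 1 y', w m * th m * g (q₁ * m + h)‖ := by linarith
  have h7 : W * (ε * Y * (3 / 4)) ≤ W * ‖∑ m ∈ Icc 1 y', w m * th m * g (q₁ * m + h)‖ := by gcongr
  have h8 : Y * (6 * Real.sqrt W) ≤ Y * (W * ε / 4) := by gcongr
  have h9 : 4 ≤ W * ε := by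
    have h10 : 24 * (24 / ε) ≤ W := by nlinarith
    have h11 : 24 * (24 / ε) * ε ≤ W * ε := by gcongr
    have h12 : 24 * (24 / ε) * ε = 576 := by
      field_simp
      norm_num
    linarith
  have h10 : (Y : ℝ) * 4 ≤ Y * (W * ε) := by gcongr
  nlinarith

open Classical in
/-- counting the shifts with a large sum over the primes -/
lemma cntP {g : ℕ → ℂ} (hg : Cm g) {N q q₁ Y : ℕ} {κ₁ κ₂ ε L B : ℝ} {w : ℕ → ℂ} (hw : ∀ n, ‖w n‖ ≤ 1)
    (hq₁ : 1 ≤ q₁) (hε : 0 < ε) (hε1 : ε ≤ 1) (hL : 0 < L) (hYL : ∀ m : ℕ, m ≤ Y → th m ≤ L)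
    (hεY : 16 ≤ ε * Y) (hW : (24 / ε) ^ 2 ≤ ∑ p ∈ Sp N κ₁ κ₂ q, (1 : ℝ) / p) (T : Finset ℕ)
    (htk : ∀ h ∈ T, ∑ m ∈ (Icc 1 Y).filter Nat.Prime, Real.log m *
      |((((Sp N κ₁ κ₂ q).filter (fun p => p ∣ q₁ * m + h)).card : ℕ) : ℝ) - ∑ p ∈ Sp N κ₁ κ₂ q, (1 : ℝ) / p| ≤
        6 * Y * Real.sqrt (∑ p ∈ Sp N κ₁ κ₂ q, (1 : ℝ) / p))
    (hshort : ∀ y' y : ℕ, y' ≤ y → y ≤ Y → ∑ m ∈ Ioc y' y, th m ≤ ((y - y' : ℕ) : ℝ) + ε / 8 * Y)
    (hB : ∀ w' : ℕ → ℂ, (∀ n, ‖w' n‖ ≤ 1) → ∀ y : ℕ, y ≤ Y →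
      ∑ h ∈ T, ‖∑ m ∈ Icc 1 y, w' m * cnv (ap N κ₁ κ₂ g q) g (q₁ * m + h)‖ ^ 2 ≤ B) :
    ((T.filter (fun h => ¬ ∀ y : ℕ, y ≤ Y →
      ‖∑ m ∈ Icc 1 y, w m * th m * g (q₁ * m + h)‖ ≤ ε * Y)).card : ℝ) ≤ (16 / ε + 1) * (B * L ^ 2 / Y ^ 2) := by
  have hY0 : (0 : ℝ) < Y := by
    have h1 : ε * Y ≤ 1 * Y := by gcongr
    linarith
  obtain ⟨s, hs⟩ : ∃ s : ℕ, s = ⌊ε * Y / 8⌋₊ := ⟨_, rfl⟩
  have hs1 : 1 ≤ s := by
    rw [hs, Nat.one_le_floor_iff]
    linarith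
  have hsle : (s : ℝ) ≤ ε * Y / 8 := by
    rw [hs]
    exact Nat.floor_le (by positivity)
  have hsge : ε * Y / 16 ≤ s := by
    have : ε * Y / 8 < s + 1 := by
      rw [hs]
      exact Nat.lt_floor_add_one _
    linarith
  have hs0 : (0 : ℝ) < s := by exact_mod_cast hs1
  have hJ : (((range (Y / s + 1)).card : ℕ) : ℝ) ≤ 16 / ε + 1 := by
    rw [card_range]
    push_cast
    have e1 : ((Y / s : ℕ) : ℝ) ≤ (Y : ℝ) / s := Nat.cast_div_le
    have e2 : (Y : ℝ) / s ≤ 16 / ε := by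
      rw [div_le_div_iff₀ hs0 hε]
      linarith
    linarith
  obtain ⟨w', hw'⟩ : ∃ w' : ℕ → ℂ, w' = fun m => if m ≤ Y then w m * ((th m / L : ℝ) : ℂ) else 0 := ⟨_, rfl⟩
  have hw'1 : ∀ n, ‖w' n‖ ≤ 1 := by
    intro n
    rw [hw']
    simp only
    split_ifs with h
    · rw [norm_mul, Complex.norm_real, Real.norm_of_nonneg (div_nonneg (th_nonneg n) hL.le)]
      exact mul_le_one₀ (hw n) (div_nonneg (th_nonneg n) hL.le) ((div_le_one hL).2 (hYL n h))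
    · simp
  have hLw : ∀ y : ℕ, y ≤ Y → ∀ h : ℕ, ‖∑ m ∈ Icc 1 y, w m * th m * cnv (ap N κ₁ κ₂ g q) g (q₁ * m + h)‖ =
      L * ‖∑ m ∈ Icc 1 y, w' m * cnv (ap N κ₁ κ₂ g q) g (q₁ * m + h)‖ := by
    intro y hy h
    have h1 : ∑ m ∈ Icc 1 y, w m * th m * cnv (ap N κ₁ κ₂ g q) g (q₁ * m + h) =
        (L : ℂ) * ∑ m ∈ Icc 1 y, w' m * cnv (ap N κ₁ κ₂ g q) g (q₁ * m + h) := by
      rw [mul_sum]
      refine sum_congr rfl fun m hm => ?_
      rw [mem_Icc] at hm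
      rw [hw']
      simp only
      rw [if_pos (hm.2.trans hy), Complex.ofReal_div]
      have : (L : ℂ) ≠ 0 := by exact_mod_cast hL.ne'
      field_simp
    rw [h1, norm_mul, Complex.norm_real, Real.norm_of_nonneg hL.le]
  have hch := cheb (S := T.filter (fun h => ¬ ∀ y : ℕ, y ≤ Y →
      ‖∑ m ∈ Icc 1 y, w m * th m * g (q₁ * m + h)‖ ≤ ε * Y)) (T := T)
    (f := fun j h => ‖∑ m ∈ Icc 1 (s * j), w' m * cnv (ap N κ₁ κ₂ g q) g (q₁ * m + h)‖) (V := Y / L) (B := B)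
    (by positivity) (range (Y / s + 1)) (by
      intro h hh
      rw [mem_filter] at hh
      obtain ⟨hT, h2⟩ := hh
      push Not at h2
      obtain ⟨y, hy, hbad⟩ := h2
      refine ⟨y / s, mem_range.2 (Nat.lt_succ_of_le (Nat.div_le_div_right hy)), ?_⟩
      have h3 := grid_badP (h := h) (s := s) (y := y) (Y := Y) hg hw hq₁ hε hε1 hW (htk h hT) hshort hs1 hsle hy hbad
      rw [hLw _ ((Nat.mul_div_le _ _).trans hy) h] at h3
      rw [div_le_iff₀ hL, mul_comm]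
      exact h3) (filter_subset _ _) (by
      intro j hj
      rw [mem_range] at hj
      have hsj : s * j ≤ Y := by
        have : s * j ≤ s * (Y / s) := Nat.mul_le_mul_left s (by omega)
        exact this.trans (Nat.mul_div_le _ _)
      exact hB w' hw'1 (s * j) hsj) (fun _ _ => norm_nonneg _)
  refine hch.trans ?_
  have hB0 : 0 ≤ B := le_trans (sum_nonneg fun _ _ => by positivity) (hB w' hw'1 0 (Nat.zero_le _))
  calc (((range (Y / s + 1)).card : ℕ) : ℝ) * (B / (Y / L) ^ 2) ≤ (16 / ε + 1) * (B / (Y / L) ^ 2) := by gcongr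
    _ = _ := by
        field_simp

open Classical in
/-- the general theorem for the primes -/
theorem genP_main {ρ ε : ℝ} (A : ℕ) (hρ : 0 < ρ) (hρ1 : ρ < 1) (hε : 0 < ε) (hε1 : ε ≤ 1) :
    ∃ c : ℕ, ∀ B : ℕ, ∃ K U x₀ : ℕ, ∀ x : ℕ, x₀ ≤ x → ∀ g : ℕ → ℂ, Cm g → SwAt (2 * x) K U g →
    ∃ D : Finset ℕ, (D.card : ℝ) ≤ Real.log x ^ c ∧ (∀ d ∈ D, Real.log x ^ B < (d : ℝ)) ∧
    ∀ q : ℕ, 1 ≤ q → (q : ℝ) ≤ (x : ℝ) ^ (1 - ρ) → (∀ d ∈ D, ¬ d ∣ q) → ∀ w : ℕ → ℂ, (∀ n, ‖w n‖ ≤ 1) →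
    (∀ a : ℕ, (((Icc 1 x).filter (fun h => h ≡ a [MOD q] ∧ ¬ ∀ y : ℕ, y ≤ x →
      ‖∑ m ∈ Icc 1 y, w m * th m * g (m + h)‖ ≤ ε * x)).card : ℝ) ≤ x / (q * Real.log x ^ A)) ∧
    (((Icc 1 x).filter (fun b => ¬ ∀ y : ℕ, q * y ≤ x →
      ‖∑ m ∈ Icc 1 y, w m * th m * g (q * m + b)‖ ≤ ε * (x / q))).card : ℝ) ≤ x / Real.log x ^ A := by
  classical
  obtain ⟨κ₂, hκ₂d⟩ : ∃ κ₂ : ℝ, κ₂ = ρ / 16 := ⟨_, rfl⟩
  have hκ₂ : 0 < κ₂ := by rw [hκ₂d]; positivity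
  obtain ⟨κ₁, hκ₁, hκ12, N₁, hW⟩ := W_low ((24 / ε) ^ 2) (by positivity) hκ₂
  obtain ⟨c, hc⟩ := PBnd (A + 4) (ρ := ρ) (κ₁ := κ₁) (κ₂ := κ₂) hρ hρ1 hκ₁ hκ12 (by rw [hκ₂d]; linarith)
  obtain ⟨Y₁, htk⟩ := tk_pr (κ := κ₁) hκ₁
  obtain ⟨Y₂, hsh⟩ := th_short (ε := ε / 8) (by positivity)
  obtain ⟨N₄, hdv⟩ := div_N (ε := ρ * κ₁ / 4) (by positivity)
  obtain ⟨N₅, hN₅⟩ := ev_rpow (s := ρ / 20) (by positivity) (4 * ((Y₁ : ℝ) + Y₂ + 1))
  refine ⟨c + 1, fun B => ?_⟩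
  obtain ⟨K, U, N₂, hP⟩ := hc B
  refine ⟨K, U, ?_⟩
  obtain ⟨N₃, h3⟩ := Filter.eventually_atTop.1 (ev_log 1 (s := ρ / 16) (by positivity)
    (100 + 2 ^ c + 1600 / ε))
  refine ⟨max (max N₁ N₂) (max (max N₃ 1) (max N₄ N₅)), fun x hx g hg hSw => ?_⟩
  have hxN₁ : N₁ ≤ 2 * x := by
    have := le_trans (le_trans (le_max_left _ _) (le_max_left _ _)) hx
    omega
  have hxN₂ : N₂ ≤ 2 * x := by
    have := le_trans (le_trans (le_max_right N₁ N₂) (le_max_left _ _)) hx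
    omega
  have hx34 := le_trans (le_max_right _ _) hx
  obtain ⟨hL, hLx⟩ := h3 x (le_trans (le_trans (le_max_left _ _) (le_max_left _ _)) hx34)
  have hx1 : 1 ≤ x := le_trans (le_trans (le_max_right _ _) (le_max_left _ _)) hx34
  have hxN₄ : N₄ ≤ x := le_trans (le_trans (le_max_left _ _) (le_max_right _ _)) hx34
  have hxN₅ : N₅ ≤ x := le_trans (le_trans (le_max_right _ _) (le_max_right _ _)) hx34
  have hx0 : (0 : ℝ) < x := by exact_mod_cast hx1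
  have hxr1 : (1 : ℝ) ≤ x := by exact_mod_cast hx1
  rw [pow_one] at hLx
  have hpc : (0 : ℝ) < 2 ^ c := by positivity
  have hpe : (0 : ℝ) < 1600 / ε := by positivity
  obtain ⟨L, hLd⟩ : ∃ L, L = Real.log (x : ℝ) := ⟨_, rfl⟩
  rw [← hLd] at hL hLx
  have hL100 : 100 ≤ L := by linarith
  have hL0 : 0 < L := by linarith
  have hL1 : 1 ≤ L := by linarith
  have hcast : ((2 * x : ℕ) : ℝ) = 2 * x := by push_cast; ring
  have hlogN : Real.log ((2 * x : ℕ) : ℝ) ≤ 2 * L := by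
    rw [hcast, Real.log_mul (by norm_num) hx0.ne', ← hLd]
    have := Real.log_two_lt_d9
    linarith
  have hlogN' : L ≤ Real.log ((2 * x : ℕ) : ℝ) := by
    rw [hLd]
    exact Real.log_le_log hx0 (by rw [hcast]; linarith)
  obtain ⟨D, hD1, hD2, hD3⟩ := hP (2 * x) hxN₂ g hg hSw
  rw [← hLd]
  refine ⟨D, ?_, ?_, ?_⟩
  · refine hD1.trans ?_
    calc Real.log ((2 * x : ℕ) : ℝ) ^ c ≤ (2 * L) ^ c := pow_le_pow_left₀ (by linarith) hlogN c
      _ = 2 ^ c * L ^ c := mul_pow _ _ _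
      _ ≤ L * L ^ c := by
          gcongr
          linarith
      _ = L ^ (c + 1) := by ring
  · intro d hd
    exact lt_of_le_of_lt (pow_le_pow_left₀ hL0.le hlogN' B) (hD2 d hd)
  intro q hq1 hq hqD w hw
  have hne : NeZero q := ⟨by omega⟩
  have hq0 : (0 : ℝ) < q := by exact_mod_cast hq1
  have hqx : (q : ℝ) ≤ x := by
    calc (q : ℝ) ≤ (x : ℝ) ^ (1 - ρ) := hq
      _ ≤ (x : ℝ) ^ (1 : ℝ) := Real.rpow_le_rpow_of_exponent_le hxr1 (by linarith)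
      _ = x := Real.rpow_one _
  have hqxn : q ≤ x := by exact_mod_cast hqx
  obtain ⟨F, hF⟩ : ∃ F, F = cnv (ap (2 * x) κ₁ κ₂ g q) g := ⟨_, rfl⟩
  obtain ⟨X, hX⟩ : ∃ X : ℝ, X = ((2 * x : ℕ) : ℝ) ^ 2 / (q * Real.log ((2 * x : ℕ) : ℝ) ^ (A + 4)) := ⟨_, rfl⟩
  have hPX : ∀ β : ℝ, P q (2 * x) F β ≤ X := by
    intro β
    rw [hF, hX]
    refine hD3 q (hq.trans ?_) hqD β
    exact Real.rpow_le_rpow hx0.le (by rw [hcast]; linarith) (by linarith)
  have hXle : X ≤ 4 * (x : ℝ) ^ 2 / (q * L ^ (A + 4)) := by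
    rw [hX, hcast]
    rw [hcast] at hlogN'
    calc (2 * (x : ℝ)) ^ 2 / (q * Real.log (2 * (x : ℝ)) ^ (A + 4)) ≤ (2 * (x : ℝ)) ^ 2 / (q * L ^ (A + 4)) := by
          gcongr
      _ = _ := by ring
  have hX0 : 0 ≤ X := by
    rw [hX]
    have : 0 ≤ Real.log ((2 * x : ℕ) : ℝ) := by linarith
    positivity
  have hN1 : 1 ≤ 2 * x := by omega
  have hWq := hW (2 * x) hxN₁ q hq1 (by omega)
  have hW1 : 1 ≤ ∑ p ∈ Sp (2 * x) κ₁ κ₂ q, (1 : ℝ) / p := by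
    refine le_trans ?_ hWq
    have h24 : 24 ≤ 24 / ε := by
      rw [le_div_iff₀ hε]
      linarith
    nlinarith
  have hexp : (x : ℝ) ^ ρ ≤ x / q := by
    rw [le_div_iff₀ hq0]
    calc (x : ℝ) ^ ρ * q ≤ (x : ℝ) ^ ρ * (x : ℝ) ^ (1 - ρ) := by gcongr
      _ = x := by
          rw [← Real.rpow_add hx0]
          simp
  have hεL : 1600 / ε ≤ L := by linarith
  have hεL' : 1600 ≤ ε * L := by
    rw [div_le_iff₀ hε] at hεL
    linarith
  -- the properties of the length `Y`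
  have hYprop : ∀ Y : ℕ, Y ≤ x → (x : ℝ) ^ ρ ≤ 2 * Y → ∀ q₁ : ℕ, 1 ≤ q₁ → (∀ p ∈ Sp (2 * x) κ₁ κ₂ q, ¬ p ∣ q₁) →
      (16 ≤ ε * Y ∧ (∀ m : ℕ, m ≤ Y → th m ≤ L) ∧
      (∀ y' y : ℕ, y' ≤ y → y ≤ Y → ∑ m ∈ Ioc y' y, th m ≤ ((y - y' : ℕ) : ℝ) + ε / 8 * Y) ∧
      ∀ h : ℕ, 1 ≤ h → h ≤ x → ∑ m ∈ (Icc 1 Y).filter Nat.Prime, Real.log m *
      |((((Sp (2 * x) κ₁ κ₂ q).filter (fun p => p ∣ q₁ * m + h)).card : ℕ) : ℝ) -
        ∑ p ∈ Sp (2 * x) κ₁ κ₂ q, (1 : ℝ) / p| ≤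
        6 * Y * Real.sqrt (∑ p ∈ Sp (2 * x) κ₁ κ₂ q, (1 : ℝ) / p)) := by
    intro Y hYx hYρ q₁ hq₁ hSq₁
    have hYxr : (Y : ℝ) ≤ x := by exact_mod_cast hYx
    have hb := hN₅ x hxN₅
    have hxρ : (x : ℝ) ^ ρ = (x : ℝ) ^ (19 * ρ / 20) * (x : ℝ) ^ (ρ / 20) := by
      rw [← Real.rpow_add hx0]
      congr 1
      ring
    have h1ρ : (1 : ℝ) ≤ (x : ℝ) ^ (19 * ρ / 20) := Real.one_le_rpow hxr1 (by positivity)
    have hY12 : (Y₁ : ℝ) + Y₂ + 1 ≤ Y := by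
      have : (x : ℝ) ^ (ρ / 20) ≤ (x : ℝ) ^ ρ := Real.rpow_le_rpow_of_exponent_le hxr1 (by linarith)
      have e1 : (0 : ℝ) ≤ (Y₁ : ℝ) := Nat.cast_nonneg _
      have e2 : (0 : ℝ) ≤ (Y₂ : ℝ) := Nat.cast_nonneg _
      linarith
    have hYr1 : (1 : ℝ) ≤ Y := by
      have e1 : (0 : ℝ) ≤ (Y₁ : ℝ) := Nat.cast_nonneg _
      have e2 : (0 : ℝ) ≤ (Y₂ : ℝ) := Nat.cast_nonneg _
      linarith
    have hYr0 : (0 : ℝ) < Y := by linarith
    have hYY₁ : Y₁ ≤ Y := by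
      have e2 : (0 : ℝ) ≤ (Y₂ : ℝ) := Nat.cast_nonneg _
      have : (Y₁ : ℝ) ≤ Y := by linarith
      exact_mod_cast this
    have hYY₂ : Y₂ ≤ Y := by
      have e2 : (0 : ℝ) ≤ (Y₁ : ℝ) := Nat.cast_nonneg _
      have : (Y₂ : ℝ) ≤ Y := by linarith
      exact_mod_cast this
    have hLY : L ≤ 2 * Y := by
      calc L ≤ (x : ℝ) ^ (ρ / 16) := hLx
        _ ≤ (x : ℝ) ^ ρ := Real.rpow_le_rpow_of_exponent_le hxr1 (by linarith)
        _ ≤ _ := hYρ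
    -- `2 x ^ (ρ / 4)` and the powers of `Y`
    have hY14 : 2 * (x : ℝ) ^ (19 * ρ / 20) ≤ Y := by
      have h4 : (4 : ℝ) ≤ (x : ℝ) ^ (ρ / 20) := by
        refine le_trans ?_ hb
        have e1 : (0 : ℝ) ≤ (Y₁ : ℝ) := Nat.cast_nonneg _
        have e2 : (0 : ℝ) ≤ (Y₂ : ℝ) := Nat.cast_nonneg _
        linarith
      rw [hxρ] at hYρ
      nlinarith
    refine ⟨?_, ?_, ?_, ?_⟩
    · have : ε * L ≤ ε * (2 * Y) := by gcongr
      linarith
    · intro m hm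
      unfold th
      split_ifs with hp
      · rw [hLd]
        exact Real.log_le_log (by exact_mod_cast hp.pos) (le_trans (by exact_mod_cast hm) hYxr)
      · exact hL0.le
    · exact hsh Y hYY₂
    · intro h hh1 hhx
      refine htk Y hYY₁ (Sp (2 * x) κ₁ κ₂ q) (fun p hp => ?_) hW1 q₁ h hh1 hSq₁ ?_
      · obtain ⟨p1, p2, p3, -⟩ := Sp_prop hp
        refine ⟨p1, ?_, ?_⟩
        · refine lt_of_le_of_lt ?_ p2
          refine Real.rpow_le_rpow hYr0.le ?_ hκ₁.le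
          rw [hcast]
          linarith
        · refine p3.trans ?_
          rw [hcast, hκ₂d]
          have e1 : (x : ℝ) ^ (19 * ρ / 100) ≤ (Y : ℝ) ^ (1 / 5 : ℝ) := by
            calc (x : ℝ) ^ (19 * ρ / 100) = ((x : ℝ) ^ (19 * ρ / 20)) ^ (1 / 5 : ℝ) := by
                  rw [← Real.rpow_mul hx0.le]
                  congr 1
                  ring
              _ ≤ (Y : ℝ) ^ (1 / 5 : ℝ) := Real.rpow_le_rpow (by positivity) (by linarith) (by norm_num)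
          refine le_trans ?_ e1
          have e2 : (2 : ℝ) * x ≤ (x : ℝ) ^ (2 : ℝ) := by
            rw [show (2 : ℝ) = ((2 : ℕ) : ℝ) by norm_num, Real.rpow_natCast]
            have : (2 : ℝ) ≤ x := by
              have := Real.log_le_self hx0.le
              rw [← hLd] at this
              linarith
            push_cast
            nlinarith
          calc (2 * (x : ℝ)) ^ (ρ / 16) ≤ ((x : ℝ) ^ (2 : ℝ)) ^ (ρ / 16) := Real.rpow_le_rpow (by positivity) e2 (by positivity)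
            _ = (x : ℝ) ^ (ρ / 8) := by
                rw [← Real.rpow_mul hx0.le]
                congr 1
                ring
            _ ≤ _ := Real.rpow_le_rpow_of_exponent_le hxr1 (by linarith)
      · refine (hdv x hxN₄ h hh1 hhx).trans ?_
        calc (x : ℝ) ^ (ρ * κ₁ / 4) ≤ (x : ℝ) ^ (19 * ρ / 20 * (κ₁ / 2)) :=
              Real.rpow_le_rpow_of_exponent_le hxr1 (by nlinarith)
          _ = ((x : ℝ) ^ (19 * ρ / 20)) ^ (κ₁ / 2) := Real.rpow_mul hx0.le _ _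
          _ ≤ (Y : ℝ) ^ (κ₁ / 2) := Real.rpow_le_rpow (by positivity) (by linarith) (by positivity)
  have h16 : 16 / ε + 1 ≤ L / 50 := by
    have e1 : 16 / ε = 1600 / ε / 100 := by ring
    rw [e1]
    linarith
  constructor
  · -- shifts
    intro a
    obtain ⟨y1, y2, y3, y4⟩ := hYprop x le_rfl (by
      have : (x : ℝ) ^ ρ ≤ x := by
        calc (x : ℝ) ^ ρ ≤ (x : ℝ) ^ (1 : ℝ) := Real.rpow_le_rpow_of_exponent_le hxr1 hρ1.le
          _ = x := Real.rpow_one _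
      linarith) 1 le_rfl (fun p hp hp1 => (Sp_prop hp).1.one_lt.ne' (Nat.dvd_one.1 hp1))
    have hcnt := cntP (q₁ := 1) (L := L) (B := X * x) hg hw le_rfl hε hε1 hL0 y2 y1 hWq
      ((Icc 1 x).filter (fun h => h ≡ a [MOD q])) (fun h hh => by
        rw [mem_filter, mem_Icc] at hh
        exact y4 h hh.1.1 hh.1.2) y3 (by
        intro w' hw' y hy
        have h4 := ms1 (q := q) hN1 F (wt1 w' y) hPX (a : ZMod q)
        have h5 : ∑ h ∈ (Icc 1 x).filter (fun h => h ≡ a [MOD q]), ‖∑ m ∈ Icc 1 y, w' m * F (m + h)‖ ^ 2 ≤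
            ∑ k ∈ (Icc (-((2 * x : ℕ) : ℤ)) ((2 * x : ℕ) : ℤ)).filter (fun k : ℤ => (k : ZMod q) = (a : ZMod q)),
              ‖cor (2 * x) F (wt1 w' y) k‖ ^ 2 := by
          calc ∑ h ∈ (Icc 1 x).filter (fun h => h ≡ a [MOD q]), ‖∑ m ∈ Icc 1 y, w' m * F (m + h)‖ ^ 2 =
              ∑ h ∈ (Icc 1 x).filter (fun h => h ≡ a [MOD q]), ‖cor (2 * x) F (wt1 w' y) (h : ℤ)‖ ^ 2 := by
                refine sum_congr rfl fun h hh => ?_
                rw [mem_filter, mem_Icc] at hh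
                rw [cor_wt1 F w' (show y + h ≤ 2 * x by omega)]
            _ = ∑ k ∈ ((Icc 1 x).filter (fun h => h ≡ a [MOD q])).image (fun h : ℕ => (h : ℤ)),
                ‖cor (2 * x) F (wt1 w' y) k‖ ^ 2 := by
                rw [sum_image (fun a _ b _ h => by exact_mod_cast h)]
            _ ≤ _ := by
                refine sum_le_sum_of_subset_of_nonneg ?_ fun _ _ _ => sq_nonneg _
                intro k hk
                rw [mem_image] at hk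
                obtain ⟨h, hh, rfl⟩ := hk
                rw [mem_filter, mem_Icc] at hh
                rw [mem_filter, mem_Icc]
                refine ⟨⟨by omega, by omega⟩, ?_⟩
                rw [Int.cast_natCast]
                exact (ZMod.natCast_eq_natCast_iff _ _ _).2 hh.2
        rw [← hF]
        simp only [one_mul]
        refine h5.trans (h4.trans ?_)
        refine mul_le_mul_of_nonneg_left ((wt1_sq hw' (2 * x) y).trans ?_) hX0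
        exact_mod_cast hy)
    rw [filter_filter] at hcnt
    simp only [one_mul] at hcnt
    refine hcnt.trans ?_
    calc (16 / ε + 1) * (X * x * L ^ 2 / (x : ℝ) ^ 2) ≤
        L / 50 * (4 * (x : ℝ) ^ 2 / (q * L ^ (A + 4)) * x * L ^ 2 / (x : ℝ) ^ 2) := by gcongr
      _ = x / (q * L ^ A) * (4 / (50 * L)) := by
          rw [pow_add]
          field_simp
      _ ≤ x / (q * L ^ A) * 1 := by
          gcongr
          rw [div_le_one (by positivity)]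
          linarith
      _ = _ := mul_one _
  · -- linear forms
    obtain ⟨Y, hY⟩ : ∃ Y : ℕ, Y = x / q := ⟨_, rfl⟩
    have hYle : (Y : ℝ) ≤ x / q := by
      rw [hY]
      exact Nat.cast_div_le
    have hYge : (x : ℝ) / q ≤ Y + 1 := by
      rw [hY, ← Nat.floor_div_eq_div (K := ℝ)]
      exact (Nat.lt_floor_add_one _).le
    have hxρ2 : (2 : ℝ) ≤ (x : ℝ) ^ ρ := by
      have : (x : ℝ) ^ (ρ / 16) ≤ (x : ℝ) ^ ρ := Real.rpow_le_rpow_of_exponent_le hxr1 (by linarith)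
      linarith
    have hY2 : (x : ℝ) / q ≤ 2 * Y := by linarith
    obtain ⟨y1, y2, y3, y4⟩ := hYprop Y (by rw [hY]; exact Nat.div_le_self _ _) (by linarith) q hq1
      (fun p hp => (Sp_prop hp).2.2.2)
    have hY0 : (0 : ℝ) < Y := by
      have : 0 < (x : ℝ) / q := by positivity
      linarith
    have hcnt := cntP (q₁ := q) (L := L) (B := X * Y) hg hw hq1 hε hε1 hL0 y2 y1 hWq
      (Icc 1 x) (fun h hh => by
        rw [mem_Icc] at hh
        exact y4 h hh.1 hh.2) y3 (by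
        intro w' hw' y hy
        have hqy : q * y ≤ x := by
          rw [hY] at hy
          exact (Nat.mul_le_mul_left q hy).trans (Nat.mul_div_le _ _)
        have h4 := ms2 (q := q) hN1 F (wt2 w' q y) hPX (fun n hn => wt2_dvd hn)
        have h5 : ∑ b ∈ Icc 1 x, ‖∑ m ∈ Icc 1 y, w' m * F (q * m + b)‖ ^ 2 ≤
            ∑ k ∈ Icc (-((2 * x : ℕ) : ℤ)) ((2 * x : ℕ) : ℤ), ‖cor (2 * x) F (wt2 w' q y) k‖ ^ 2 := by
          calc ∑ b ∈ Icc 1 x, ‖∑ m ∈ Icc 1 y, w' m * F (q * m + b)‖ ^ 2 =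
              ∑ b ∈ Icc 1 x, ‖cor (2 * x) F (wt2 w' q y) (b : ℤ)‖ ^ 2 := by
                refine sum_congr rfl fun b hb => ?_
                rw [mem_Icc] at hb
                rw [cor_wt2 F w' hq1 (show q * y + b ≤ 2 * x by omega)]
            _ = ∑ k ∈ (Icc 1 x).image (fun h : ℕ => (h : ℤ)), ‖cor (2 * x) F (wt2 w' q y) k‖ ^ 2 := by
                rw [sum_image (fun a _ b _ h => by exact_mod_cast h)]
            _ ≤ _ := by
                refine sum_le_sum_of_subset_of_nonneg ?_ fun _ _ _ => sq_nonneg _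
                intro k hk
                rw [mem_image] at hk
                obtain ⟨h, hh, rfl⟩ := hk
                rw [mem_Icc] at hh
                rw [mem_Icc]
                exact ⟨by omega, by omega⟩
        rw [← hF]
        refine h5.trans (h4.trans ?_)
        refine mul_le_mul_of_nonneg_left ((wt2_sq hw' (2 * x) y hq1).trans ?_) hX0
        exact_mod_cast hy)
    refine le_trans (Nat.cast_le.2 (card_le_card ?_)) (hcnt.trans ?_)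
    · intro b hb
      rw [mem_filter] at hb ⊢
      refine ⟨hb.1, fun hall => hb.2 fun y hy => ?_⟩
      have hyY : y ≤ Y := by
        rw [hY]
        exact (Nat.le_div_iff_mul_le hq1).2 (by rw [mul_comm]; exact hy)
      refine (hall y hyY).trans ?_
      gcongr
    · have hxY : (x : ℝ) ≤ 2 * Y * q := by
        rw [div_le_iff₀ hq0] at hY2
        exact hY2
      calc (16 / ε + 1) * (X * Y * L ^ 2 / (Y : ℝ) ^ 2) ≤
          L / 50 * (4 * (x : ℝ) ^ 2 / (q * L ^ (A + 4)) * Y * L ^ 2 / (Y : ℝ) ^ 2) := by gcongr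
        _ = x / L ^ A * (4 / (50 * L)) * (x / (Y * q)) := by
            rw [pow_add]
            field_simp
        _ ≤ x / L ^ A * (4 / (50 * L)) * 2 := by
            gcongr
            rw [div_le_iff₀ (by positivity)]
            linarith
        _ = x / L ^ A * (8 / (50 * L)) := by ring
        _ ≤ x / L ^ A * 1 := by
            gcongr
            rw [div_le_one (by positivity)]
            linarith
        _ = _ := mul_one _

end Pool.Agent.H579.Q
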