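import Pool.Agent.H579.Q.Fin

set_option autoImplicit false

/-! From the Liouville function to the Moebius function, at linear forms. -/

namespace Pool.Agent.H579.Q

open Finset
open Pool.Agent.Y614.GJ.Core (P ev_log)
open Pool.Agent.H373R2.T7 (lam_ap)
open Pool.Agent.H579.L

open Classical in
/-- `1` if no prime `p ≤ P₀` has its square dividing `n` -/
noncomputable def kap (P₀ n : ℕ) : ℝ := if ∃ p : ℕ, p.Prime ∧ p ≤ P₀ ∧ p ^ 2 ∣ n then 0 else 1

lemma kap_abs (P₀ n : ℕ) : |kap P₀ n| ≤ 1 := by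
  unfold kap
  split_ifs <;> simp

lemma kap_mod (P₀ q b m : ℕ) :
    kap P₀ (q * m + b % (P₀.factorial ^ 2)) = kap P₀ (q * m + b) := by
  unfold kap
  have h : (∃ p : ℕ, p.Prime ∧ p ≤ P₀ ∧ p ^ 2 ∣ q * m + b % (P₀.factorial ^ 2)) ↔
      ∃ p : ℕ, p.Prime ∧ p ≤ P₀ ∧ p ^ 2 ∣ q * m + b := by
    refine exists_congr fun p => and_congr_right fun hp => and_congr_right fun hpP => ?_
    have h1 : p ^ 2 ∣ P₀.factorial ^ 2 := pow_dvd_pow_of_dvd (Nat.dvd_factorial hp.pos hpP) 2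
    have h2 : q * m + b % (P₀.factorial ^ 2) ≡ q * m + b [MOD p ^ 2] :=
      Nat.ModEq.add_left _ ((Nat.mod_modEq b (P₀.factorial ^ 2)).of_dvd h1)
    exact h2.dvd_iff dvd_rfl
  by_cases hh : ∃ p : ℕ, p.Prime ∧ p ≤ P₀ ∧ p ^ 2 ∣ q * m + b
  · rw [if_pos (h.2 hh), if_pos hh]
  · rw [if_neg (fun h' => hh (h.1 h')), if_neg hh]

/-- the Moebius function from the Liouville function -/
lemma mu_kap {P₀ n X : ℕ} (hn : 1 ≤ n) (hnX : n ≤ X) :
    ‖((ArithmeticFunction.moebius n : ℤ) : ℂ) - (kap P₀ n : ℂ) * lio n‖ ≤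
      ∑ p ∈ (Ioc P₀ X).filter Nat.Prime, (if p ^ 2 ∣ n then (1 : ℝ) else 0) := by
  have h0 : 0 ≤ ∑ p ∈ (Ioc P₀ X).filter Nat.Prime, (if p ^ 2 ∣ n then (1 : ℝ) else 0) :=
    sum_nonneg fun _ _ => by split_ifs <;> norm_num
  by_cases hsq : Squarefree n
  · have h1 : kap P₀ n = 1 := by
      unfold kap
      rw [if_neg]
      rintro ⟨p, hp, -, h2⟩
      have h3 := hsq p (by rwa [← sq])
      exact hp.one_lt.ne' (Nat.isUnit_iff.1 h3)
    rw [h1, lio_eq (by omega), ArithmeticFunction.moebius_apply_of_squarefree hsq]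
    push_cast
    rw [one_mul, sub_self, norm_zero]
    exact h0
  · rw [ArithmeticFunction.moebius_eq_zero_of_not_squarefree hsq]
    push_cast
    rw [zero_sub, norm_neg, norm_mul, Complex.norm_real, Real.norm_eq_abs]
    by_cases hk : ∃ p : ℕ, p.Prime ∧ p ≤ P₀ ∧ p ^ 2 ∣ n
    · have h1 : kap P₀ n = 0 := by
        unfold kap
        rw [if_pos hk]
      rw [h1, abs_zero, zero_mul]
      exact h0
    · have h1 : |kap P₀ n| * ‖lio n‖ ≤ 1 := mul_le_one₀ (kap_abs _ _) (norm_nonneg _) (cm_lio.bd n)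
      refine h1.trans ?_
      have h2 : ∃ p : ℕ, p.Prime ∧ p * p ∣ n := by
        by_contra hcon
        push Not at hcon
        exact hsq (Nat.squarefree_iff_prime_squarefree.2 hcon)
      obtain ⟨p, hp, hpn⟩ := h2
      rw [← sq] at hpn
      have hpP : P₀ < p := by
        by_contra hcon
        exact hk ⟨p, hp, by omega, hpn⟩
      have hpX : p ≤ X := by
        have : p ≤ n := Nat.le_of_dvd hn ((dvd_pow_self p two_ne_zero).trans hpn)
        omega
      have h3 : (if p ^ 2 ∣ n then (1 : ℝ) else 0) ≤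
          ∑ p ∈ (Ioc P₀ X).filter Nat.Prime, (if p ^ 2 ∣ n then (1 : ℝ) else 0) :=
        single_le_sum (f := fun p => if p ^ 2 ∣ n then (1 : ℝ) else 0) (fun _ _ => by positivity)
          (mem_filter.2 ⟨mem_Ioc.2 ⟨hpP, hpX⟩, hp⟩)
      rwa [if_pos hpn] at h3

/-- the class -/
lemma cls {q d : ℕ} (b : ℕ) (hd : 1 ≤ d) (hq : Nat.Coprime q d) : ∃ r : ℕ, ∀ m : ℕ, d ∣ q * m + b ↔ m ≡ r [MOD d] := by
  have hne : NeZero d := ⟨by omega⟩
  obtain ⟨u, hu⟩ : ∃ u : (ZMod d)ˣ, (u : ZMod d) = (q : ZMod d) := by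
    have := (ZMod.isUnit_iff_coprime q d).2 hq
    exact ⟨this.unit, this.unit_spec⟩
  obtain ⟨r, hr⟩ : ∃ r : ℕ, (r : ZMod d) = -(b : ZMod d) * ((u⁻¹ : (ZMod d)ˣ) : ZMod d) :=
    ⟨(-(b : ZMod d) * ((u⁻¹ : (ZMod d)ˣ) : ZMod d)).val, ZMod.natCast_zmod_val _⟩
  refine ⟨r, fun m => ?_⟩
  rw [← ZMod.natCast_eq_zero_iff, ← ZMod.natCast_eq_natCast_iff, hr, Nat.cast_add, Nat.cast_mul, ← hu]
  constructor
  · intro h2
    have h3 : (u : ZMod d) * (m : ZMod d) = -(b : ZMod d) := by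
      rw [← sub_eq_zero, sub_neg_eq_add]
      exact h2
    rw [← h3, mul_comm ((u : ZMod d) * m), ← mul_assoc, Units.inv_mul, one_mul]
  · intro h2
    rw [h2, mul_comm (-(b : ZMod d)), ← mul_assoc, Units.mul_inv, one_mul]
    ring

/-- the middle primes -/
lemma tail1 {ρ ε : ℝ} (hρ : 0 < ρ) (hε : 0 < ε) (E : ℕ) : ∃ P₀ Y₀ : ℕ, 1 ≤ P₀ ∧ ∀ Y : ℕ, Y₀ ≤ Y → ∀ x z : ℕ,
    Real.log x ≤ Real.log Y / ρ → (z : ℝ) ≤ 2 * Real.log x ^ E → ∀ q b : ℕ, Nat.Coprime b q →
    ∑ m ∈ Icc 1 Y, ArithmeticFunction.vonMangoldt m *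
      ∑ p ∈ (Ioc P₀ z).filter Nat.Prime, (if p ^ 2 ∣ q * m + b then (1 : ℝ) else 0) ≤ ε * Y := by
  obtain ⟨P₀, hP₀⟩ := exists_nat_ge (4 / ε + 1)
  have hε4 : 0 < 4 / ε := by positivity
  have hP1 : 1 ≤ P₀ := by
    have : (1 : ℝ) ≤ P₀ := by linarith
    exact_mod_cast this
  obtain ⟨N₁, h1⟩ := lam_ap (2 * E + 2) (E + 1)
  obtain ⟨N₂, h2⟩ := Filter.eventually_atTop.1 (ev_log 1 (s := 1) (by norm_num)
    (1 + 2 * (1 / ρ) ^ E + (2 * (1 / ρ) ^ E) ^ 2 + 4 * (1 / ρ) ^ E / ε))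
  refine ⟨P₀, max (max N₁ N₂) 1, hP1, fun Y hY x z hxY hz q b hqb => ?_⟩
  have hYN₁ : N₁ ≤ Y := le_trans (le_trans (le_max_left _ _) (le_max_left _ _)) hY
  obtain ⟨hL, -⟩ := h2 Y (le_trans (le_trans (le_max_right _ _) (le_max_left _ _)) hY)
  have hY1 : 1 ≤ Y := le_trans (le_max_right _ _) hY
  have hY0 : (0 : ℝ) < Y := by exact_mod_cast hY1
  obtain ⟨c, hc⟩ : ∃ c : ℝ, c = (1 / ρ) ^ E := ⟨_, rfl⟩
  have hc0 : 0 < c := by rw [hc]; positivity
  rw [← hc] at hL
  obtain ⟨L, hLd⟩ : ∃ L, L = Real.log (Y : ℝ) := ⟨_, rfl⟩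
  rw [← hLd] at hL hxY
  have g0 : 0 < 4 * c / ε := by positivity
  have g1 : 0 ≤ (2 * c) ^ 2 := by positivity
  have hL1 : 1 ≤ L := by linarith
  have hL0 : 0 < L := by linarith
  have hlx0 : 0 ≤ Real.log (x : ℝ) := Real.log_natCast_nonneg x
  have hzL : (z : ℝ) ≤ 2 * c * L ^ E := by
    refine hz.trans ?_
    calc 2 * Real.log x ^ E ≤ 2 * (L / ρ) ^ E := by gcongr
      _ = 2 * c * L ^ E := by
          rw [hc, div_eq_mul_one_div, mul_pow]
          ring
  have hterm : ∀ p ∈ (Ioc P₀ z).filter Nat.Prime, ∑ m ∈ Icc 1 Y, ArithmeticFunction.vonMangoldt m *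
      (if p ^ 2 ∣ q * m + b then (1 : ℝ) else 0) ≤ 2 * Y * ((p : ℝ) ^ 2)⁻¹ + Y / L ^ (E + 1) := by
    intro p hp
    rw [mem_filter, mem_Ioc] at hp
    obtain ⟨⟨hp1, hp2⟩, hpp⟩ := hp
    have hp0 : (0 : ℝ) < p := by exact_mod_cast hpp.pos
    by_cases hpq : p ∣ q
    · have h3 : ∀ m, ¬ p ^ 2 ∣ q * m + b := by
        intro m hm
        have h4 : p ∣ q * m + b := (dvd_pow_self p two_ne_zero).trans hm
        have h5 : p ∣ b := (Nat.dvd_add_right (hpq.mul_right m)).1 h4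
        have h6 := Nat.dvd_gcd h5 hpq
        rw [hqb] at h6
        exact hpp.one_lt.ne' (Nat.dvd_one.1 h6)
      have h4 : ∑ m ∈ Icc 1 Y, ArithmeticFunction.vonMangoldt m *
          (if p ^ 2 ∣ q * m + b then (1 : ℝ) else 0) = 0 :=
        sum_eq_zero fun m _ => by rw [if_neg (h3 m), mul_zero]
      rw [h4]
      positivity
    · have hcop : Nat.Coprime q (p ^ 2) := ((Nat.Prime.coprime_iff_not_dvd hpp).2 hpq).symm.pow_right 2
      obtain ⟨r, hr⟩ := cls b (Nat.pos_of_ne_zero (pow_ne_zero 2 hpp.pos.ne')) hcop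
      have h3 := h1 Y hYN₁ (p ^ 2) (Nat.pos_of_ne_zero (pow_ne_zero 2 hpp.pos.ne')) (by
        rw [← hLd]
        push_cast
        have hpz : (p : ℝ) ≤ 2 * c * L ^ E := le_trans (by exact_mod_cast hp2) hzL
        calc (p : ℝ) ^ 2 ≤ (2 * c * L ^ E) ^ 2 := pow_le_pow_left₀ hp0.le hpz 2
          _ = (2 * c) ^ 2 * L ^ (2 * E) := by ring
          _ ≤ L * L ^ (2 * E) := by
              gcongr
              linarith
          _ = L ^ (2 * E + 1) := by ring
          _ ≤ L ^ (2 * E + 2) := pow_le_pow_right₀ hL1 (by omega)) r Y le_rfl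
      rw [← hLd] at h3
      have h4 : ∑ m ∈ Icc 1 Y, ArithmeticFunction.vonMangoldt m *
          (if p ^ 2 ∣ q * m + b then (1 : ℝ) else 0) =
          ∑ m ∈ (Icc 1 Y).filter (fun n => n ≡ r [MOD p ^ 2]), ArithmeticFunction.vonMangoldt m := by
        rw [sum_filter]
        refine sum_congr rfl fun m _ => ?_
        by_cases hm : p ^ 2 ∣ q * m + b
        · rw [if_pos hm, if_pos ((hr m).1 hm), mul_one]
        · rw [if_neg hm, if_neg (fun h => hm ((hr m).2 h)), mul_zero]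
      rw [h4]
      have h5 : (if r.Coprime (p ^ 2) then (Y : ℝ) / (Nat.totient (p ^ 2) : ℝ) else 0) ≤ 2 * Y * ((p : ℝ) ^ 2)⁻¹ := by
        split_ifs
        · rw [Nat.totient_prime_pow hpp (by norm_num)]
          have hp2r : (2 : ℝ) ≤ p := by exact_mod_cast hpp.two_le
          push_cast [Nat.cast_sub hpp.one_lt.le]
          have h6 : (0 : ℝ) < p - 1 := by linarith
          rw [div_le_iff₀ (by positivity)]
          have h7 : 2 * (Y : ℝ) * ((p : ℝ) ^ 2)⁻¹ * ((p : ℝ) ^ (2 - 1) * (p - 1)) = Y * (2 * (p - 1) / p) := by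
            rw [show (2 - 1 : ℕ) = 1 by norm_num, pow_one]
            field_simp
          rw [h7]
          have h8 : 1 ≤ 2 * ((p : ℝ) - 1) / p := by
            rw [le_div_iff₀ hp0]
            linarith
          nlinarith
        · positivity
      have h6 := (abs_le.1 h3).2
      linarith
  have hswap : ∑ m ∈ Icc 1 Y, ArithmeticFunction.vonMangoldt m *
      ∑ p ∈ (Ioc P₀ z).filter Nat.Prime, (if p ^ 2 ∣ q * m + b then (1 : ℝ) else 0) =
      ∑ p ∈ (Ioc P₀ z).filter Nat.Prime, ∑ m ∈ Icc 1 Y, ArithmeticFunction.vonMangoldt m *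
        (if p ^ 2 ∣ q * m + b then (1 : ℝ) else 0) := by
    rw [sum_comm]
    refine sum_congr rfl fun m _ => ?_
    rw [mul_sum]
  rw [hswap]
  refine (sum_le_sum hterm).trans ?_
  rw [sum_add_distrib, ← mul_sum, sum_const, nsmul_eq_mul]
  have e1 : ∑ p ∈ (Ioc P₀ z).filter Nat.Prime, ((p : ℝ) ^ 2)⁻¹ ≤ ((P₀ : ℝ))⁻¹ := by
    refine le_trans (sum_le_sum_of_subset_of_nonneg (filter_subset _ _) fun _ _ _ => by positivity) ?_
    rcases Nat.lt_or_ge P₀ z with h | h
    · have := sum_Ioc_inv_sq_le_sub (α := ℝ) (k := P₀) (n := z) (by omega) h.le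
      have h2 : (0 : ℝ) ≤ (z : ℝ)⁻¹ := by positivity
      linarith
    · rw [Ioc_eq_empty (by omega), sum_empty]
      positivity
  have e2 : ((P₀ : ℝ))⁻¹ ≤ ε / 4 := by
    rw [inv_le_comm₀ (by exact_mod_cast hP1) (by positivity)]
    rw [inv_div]
    linarith
  have e3 : (((Ioc P₀ z).filter Nat.Prime).card : ℝ) ≤ 2 * c * L ^ E := by
    refine le_trans ?_ hzL
    have : ((Ioc P₀ z).filter Nat.Prime).card ≤ z := by
      refine (card_filter_le _ _).trans ?_
      rw [Nat.card_Ioc]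
      exact Nat.sub_le _ _
    exact_mod_cast this
  have e4 : (((Ioc P₀ z).filter Nat.Prime).card : ℝ) * (Y / L ^ (E + 1)) ≤ ε / 2 * Y := by
    calc (((Ioc P₀ z).filter Nat.Prime).card : ℝ) * (Y / L ^ (E + 1)) ≤ 2 * c * L ^ E * (Y / L ^ (E + 1)) := by gcongr
      _ = Y * (2 * c / L) := by
          rw [pow_succ]
          field_simp
      _ ≤ Y * (ε / 2) := by
          refine mul_le_mul_of_nonneg_left ?_ hY0.le
          rw [div_le_iff₀ hL0]
          have : 4 * c / ε ≤ L := by linarith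
          rw [div_le_iff₀ hε] at this
          linarith
      _ = _ := by ring
  have e5 : 2 * (Y : ℝ) * ∑ p ∈ (Ioc P₀ z).filter Nat.Prime, ((p : ℝ) ^ 2)⁻¹ ≤ 2 * Y * (ε / 4) := by
    gcongr
    exact e1.trans e2
  linarith

/-- the large primes, in the mean over `b` -/
lemma tail2 {x q Y z : ℕ} (hq : q * Y ≤ x) (hz : 1 ≤ z) :
    ∑ b ∈ Icc 1 x, ∑ m ∈ Icc 1 Y, ArithmeticFunction.vonMangoldt m *
      ∑ p ∈ (Ioc z (2 * x)).filter Nat.Prime, (if p ^ 2 ∣ q * m + b then (1 : ℝ) else 0) ≤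
      6 * Y * ((x : ℝ) / z + Real.sqrt (2 * x)) := by
  have h1 : ∀ m ∈ Icc 1 Y, ∑ b ∈ Icc 1 x, ∑ p ∈ (Ioc z (2 * x)).filter Nat.Prime,
      (if p ^ 2 ∣ q * m + b then (1 : ℝ) else 0) ≤ (x : ℝ) / z + Real.sqrt (2 * x) := by
    intro m hm
    rw [mem_Icc] at hm
    rw [sum_comm]
    have h2 : ∀ p ∈ (Ioc z (2 * x)).filter Nat.Prime, ∑ b ∈ Icc 1 x, (if p ^ 2 ∣ q * m + b then (1 : ℝ) else 0) ≤
        if p ≤ Nat.sqrt (2 * x) then (x : ℝ) * ((p : ℝ) ^ 2)⁻¹ + 1 else 0 := by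
      intro p hp
      rw [mem_filter, mem_Ioc] at hp
      rw [← sum_filter, sum_const, nsmul_eq_mul, mul_one]
      split_ifs with hps
      · have h3 : ((Icc 1 x).filter (fun b => p ^ 2 ∣ q * m + b)).card ≤ x / p ^ 2 + 1 := by
          have hp2 : 0 < p ^ 2 := Nat.pos_of_ne_zero (pow_ne_zero 2 hp.2.pos.ne')
          have h4 : ((Icc 1 x).filter (fun b => p ^ 2 ∣ q * m + b)).card ≤
              (range (x / p ^ 2 + 1)).card := by
            refine card_le_card_of_injOn (fun b => (b - 1) / p ^ 2) ?_ ?_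
            · intro b hb
              rw [coe_filter, Set.mem_ofPred_eq, mem_Icc] at hb
              rw [coe_range, Set.mem_Iio]
              exact Nat.lt_succ_of_le (Nat.div_le_div_right (by omega))
            · intro b hb b' hb' heq
              rw [coe_filter, Set.mem_ofPred_eq, mem_Icc] at hb hb'
              have h5 : (b : ℤ) ≡ b' [ZMOD (p ^ 2 : ℕ)] := by
                have h6 : ((p ^ 2 : ℕ) : ℤ) ∣ ((q * m + b' : ℕ) : ℤ) - ((q * m + b : ℕ) : ℤ) :=
                  dvd_sub (by exact_mod_cast hb'.2) (by exact_mod_cast hb.2)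
                rw [Int.modEq_iff_dvd]
                convert h6 using 1
                push_cast
                ring
              have h6 : b % p ^ 2 = b' % p ^ 2 := by
                have := (Int.natCast_modEq_iff.1 h5)
                exact this
              have h7 : (b - 1) % p ^ 2 = (b' - 1) % p ^ 2 := by
                have h8 : (b - 1) + 1 ≡ (b' - 1) + 1 [MOD p ^ 2] := by
                  rw [Nat.sub_add_cancel hb.1.1, Nat.sub_add_cancel hb'.1.1]
                  exact h6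
                exact Nat.ModEq.add_right_cancel' 1 h8
              simp only at heq
              have h9 := Nat.div_add_mod (b - 1) (p ^ 2)
              have h10 := Nat.div_add_mod (b' - 1) (p ^ 2)
              rw [heq, h7] at h9
              omega
          rwa [card_range] at h4
        have h4 : ((x / p ^ 2 : ℕ) : ℝ) ≤ (x : ℝ) * ((p : ℝ) ^ 2)⁻¹ := by
          refine Nat.cast_div_le.trans (le_of_eq ?_)
          push_cast
          ring
        calc (((Icc 1 x).filter (fun b => p ^ 2 ∣ q * m + b)).card : ℝ) ≤ ((x / p ^ 2 + 1 : ℕ) : ℝ) := by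
              exact_mod_cast h3
          _ ≤ _ := by
              push_cast
              linarith
      · have h3 : (Icc 1 x).filter (fun b => p ^ 2 ∣ q * m + b) = ∅ := by
          rw [filter_eq_empty_iff]
          intro b hb hdvd
          rw [mem_Icc] at hb
          have h4 := Nat.le_of_dvd (by omega) hdvd
          have h5 : q * m ≤ q * Y := Nat.mul_le_mul_left q hm.2
          apply hps
          rw [Nat.le_sqrt', ]
          omega
        rw [h3, card_empty, Nat.cast_zero]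
    refine (sum_le_sum h2).trans ?_
    rw [← sum_filter, sum_add_distrib, ← mul_sum, sum_const, nsmul_eq_mul, mul_one]
    refine add_le_add ?_ ?_
    · rw [div_eq_mul_inv]
      refine mul_le_mul_of_nonneg_left ?_ (Nat.cast_nonneg _)
      refine le_trans (sum_le_sum_of_subset_of_nonneg (t := Ioc z (2 * x))
        ((filter_subset _ _).trans (filter_subset _ _)) fun _ _ _ => by positivity) ?_
      rcases Nat.lt_or_ge z (2 * x) with h | h
      · have := sum_Ioc_inv_sq_le_sub (α := ℝ) (k := z) (n := 2 * x) (by omega) h.le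
        have h2 : (0 : ℝ) ≤ ((2 * x : ℕ) : ℝ)⁻¹ := by positivity
        linarith
      · rw [Ioc_eq_empty (by omega), sum_empty]
        positivity
    · have h3 : (((Ioc z (2 * x)).filter Nat.Prime).filter (fun p => p ≤ Nat.sqrt (2 * x))) ⊆
          Icc 1 (Nat.sqrt (2 * x)) := by
        intro p hp
        rw [mem_filter, mem_filter] at hp
        rw [mem_Icc]
        exact ⟨hp.1.2.one_lt.le, hp.2⟩
      have h4 := card_le_card h3
      rw [Nat.card_Icc, Nat.add_sub_cancel] at h4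
      have h5 : (Nat.sqrt (2 * x) : ℝ) ≤ Real.sqrt (2 * x) := by
        have := Real.nat_sqrt_le_real_sqrt (a := 2 * x)
        push_cast at this
        exact this
      exact le_trans (by exact_mod_cast h4) h5
  have h2 : ∑ b ∈ Icc 1 x, ∑ m ∈ Icc 1 Y, ArithmeticFunction.vonMangoldt m *
      ∑ p ∈ (Ioc z (2 * x)).filter Nat.Prime, (if p ^ 2 ∣ q * m + b then (1 : ℝ) else 0) =
      ∑ m ∈ Icc 1 Y, ArithmeticFunction.vonMangoldt m * ∑ b ∈ Icc 1 x,
        ∑ p ∈ (Ioc z (2 * x)).filter Nat.Prime, (if p ^ 2 ∣ q * m + b then (1 : ℝ) else 0) := by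
    rw [sum_comm]
    refine sum_congr rfl fun m _ => ?_
    rw [mul_sum]
  rw [h2]
  calc ∑ m ∈ Icc 1 Y, ArithmeticFunction.vonMangoldt m * ∑ b ∈ Icc 1 x,
        ∑ p ∈ (Ioc z (2 * x)).filter Nat.Prime, (if p ^ 2 ∣ q * m + b then (1 : ℝ) else 0) ≤
      ∑ m ∈ Icc 1 Y, ArithmeticFunction.vonMangoldt m * ((x : ℝ) / z + Real.sqrt (2 * x)) :=
        sum_le_sum fun m hm => mul_le_mul_of_nonneg_left (h1 m hm) ArithmeticFunction.vonMangoldt_nonneg
    _ = (∑ m ∈ Icc 1 Y, ArithmeticFunction.vonMangoldt m) * ((x : ℝ) / z + Real.sqrt (2 * x)) := by rw [sum_mul]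
    _ ≤ 6 * Y * ((x : ℝ) / z + Real.sqrt (2 * x)) := by
        refine mul_le_mul_of_nonneg_right ?_ (by positivity)
        have h3 := Chebyshev.psi_le_const_mul_self (x := (Y : ℝ)) (Nat.cast_nonneg _)
        have h4 : ∑ m ∈ Icc 1 Y, ArithmeticFunction.vonMangoldt m = Chebyshev.psi Y := by
          rw [Chebyshev.psi, Nat.floor_natCast]
          have e1 : Icc 1 Y = Ioc 0 Y := by ext; simp [Nat.lt_iff_add_one_le]
          rw [e1]
        rw [h4]
        refine h3.trans ?_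
        have h5 : Real.log 4 ≤ 2 := by
          have : Real.log 4 = 2 * Real.log 2 := by
            rw [show (4 : ℝ) = 2 ^ 2 by norm_num, Real.log_pow]
            norm_num
          have := Real.log_two_lt_d9
          linarith
        have : (0 : ℝ) ≤ Y := Nat.cast_nonneg _
        nlinarith

end Pool.Agent.H579.Q
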