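import Pool.Agent.H579.Q.Mu

set_option autoImplicit false

/-! The Moebius function at linear forms of primes. -/

namespace Pool.Agent.H579.Q

open Finset
open Pool.Agent.Y614.GJ.Core (P ev_log)
open Pool.Agent.H579.L

open Classical in
theorem mu_forms (ρ ε : ℝ) (hρ : 0 < ρ) (hε : 0 < ε) (A : ℕ) :
    ∃ c : ℕ, ∀ B : ℕ, ∃ x₀ : ℕ, ∀ x : ℕ, x₀ ≤ x →
    ∃ D : Finset ℕ, (D.card : ℝ) ≤ Real.log x ^ c ∧ (∀ d ∈ D, Real.log x ^ B < (d : ℝ)) ∧
    ∀ q : ℕ, 1 ≤ q → (q : ℝ) ≤ (x : ℝ) ^ (1 - ρ) → (∀ d ∈ D, ¬ d ∣ q) → ∀ w : ℕ → ℂ, (∀ n, ‖w n‖ ≤ 1) →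
    (((Icc 1 x).filter (fun b => b.Coprime q ∧ ∃ y : ℕ, q * y ≤ x ∧
      ε * (x / q) < ‖∑ m ∈ Icc 1 y, w m * (ArithmeticFunction.vonMangoldt m : ℝ) *
        ((ArithmeticFunction.moebius (q * m + b) : ℤ) : ℂ)‖)).card : ℝ) ≤ x / Real.log x ^ A := by
  obtain ⟨η, hη⟩ : ∃ η : ℝ, η = min (ε / 8) 1 := ⟨_, rfl⟩
  have hη0 : 0 < η := by
    rw [hη]
    exact lt_min (by positivity) (by norm_num)
  have hη1 : η ≤ 1 := by
    rw [hη]
    exact min_le_right _ _
  have hηε : η ≤ ε / 8 := by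
    rw [hη]
    exact min_le_left _ _
  obtain ⟨ρ', hρ'd⟩ : ∃ ρ' : ℝ, ρ' = min ρ (1 / 2) := ⟨_, rfl⟩
  have hρ' : 0 < ρ' := by
    rw [hρ'd]
    exact lt_min hρ (by norm_num)
  have hρ'1 : ρ' ≤ 1 / 2 := by
    rw [hρ'd]
    exact min_le_right _ _
  have hρ'ρ : ρ' ≤ ρ := by
    rw [hρ'd]
    exact min_le_left _ _
  obtain ⟨c, hc⟩ := genP_main (ρ := ρ') (ε := η) (A + 1) hρ' (by linarith) hη0 hη1
  obtain ⟨Y₀, hth⟩ := lam_th (ε := ε / 8) (by positivity)
  obtain ⟨P₀, Y₁, hP1, ht1⟩ := tail1 (ρ := ρ' / 2) (ε := ε / 8) (by positivity) (by positivity) (A + 4)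
  obtain ⟨M, hM⟩ : ∃ M : ℕ, M = P₀.factorial ^ 2 := ⟨_, rfl⟩
  have hM1 : 1 ≤ M := by
    rw [hM]
    exact Nat.pos_of_ne_zero (pow_ne_zero 2 (Nat.factorial_ne_zero _))
  obtain ⟨N₁, hN₁⟩ := ev_rpow (s := ρ') hρ' (4 * ((Y₀ : ℝ) + Y₁ + 4))
  obtain ⟨N₂, hN₂⟩ := Filter.eventually_atTop.1 (ev_log (A + 4) (s := 1 / 4) (by norm_num)
    (10 + 2 * M + 48 / ε + P₀ + 2 / ρ'))
  refine ⟨c, fun B => ?_⟩
  obtain ⟨K, U, x₀, h⟩ := hc B
  obtain ⟨N₀, hN⟩ := sw_of_sup (F := lio) cm_lio.bd sup_lio K U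
  refine ⟨max (max x₀ N₀) (max (max N₁ N₂) 1), fun x hx => ?_⟩
  have hx₀ : x₀ ≤ x := le_trans (le_trans (le_max_left _ _) (le_max_left _ _)) hx
  have hxN : N₀ ≤ 2 * x := by
    have : N₀ ≤ x := le_trans (le_trans (le_max_right _ _) (le_max_left _ _)) hx
    omega
  have hxr := le_trans (le_max_right _ _) hx
  have hxN₁ : N₁ ≤ x := le_trans (le_trans (le_max_left _ _) (le_max_left _ _)) hxr
  have hxN₂ : N₂ ≤ x := le_trans (le_trans (le_max_right _ _) (le_max_left _ _)) hxr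
  have hx1 : 1 ≤ x := le_trans (le_max_right _ _) hxr
  have hx0 : (0 : ℝ) < x := by exact_mod_cast hx1
  have hxr1 : (1 : ℝ) ≤ x := by exact_mod_cast hx1
  obtain ⟨hL, hLx⟩ := hN₂ x hxN₂
  have hb := hN₁ x hxN₁
  obtain ⟨L, hLd⟩ : ∃ L, L = Real.log (x : ℝ) := ⟨_, rfl⟩
  rw [← hLd] at hL hLx
  have f1 : (0 : ℝ) ≤ (M : ℝ) := Nat.cast_nonneg _
  have f2 : 0 < 48 / ε := by positivity
  have f3 : (0 : ℝ) ≤ (P₀ : ℝ) := Nat.cast_nonneg _
  have f4 : 0 < 2 / ρ' := by positivity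
  have hL10 : 10 ≤ L := by linarith
  have hL0 : 0 < L := by linarith
  have hL1 : 1 ≤ L := by linarith
  obtain ⟨D, hD1, hD2, hD3⟩ := h x hx₀ lio cm_lio (hN (2 * x) hxN)
  rw [← hLd] at hD1 hD2
  rw [← hLd]
  refine ⟨D, hD1, hD2, fun q hq1 hq hqD w hw => ?_⟩
  have hq0 : (0 : ℝ) < q := by exact_mod_cast hq1
  have hq' : (q : ℝ) ≤ (x : ℝ) ^ (1 - ρ') := hq.trans (Real.rpow_le_rpow_of_exponent_le hxr1 (by linarith))
  have hD4 := hD3 q hq1 hq' hqD
  rw [← hLd] at hD4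
  obtain ⟨Y, hY⟩ : ∃ Y : ℕ, Y = x / q := ⟨_, rfl⟩
  have hYle : (Y : ℝ) ≤ x / q := by
    rw [hY]
    exact Nat.cast_div_le
  have hYge : (x : ℝ) / q ≤ Y + 1 := by
    rw [hY, ← Nat.floor_div_eq_div (K := ℝ)]
    exact (Nat.lt_floor_add_one _).le
  have hexp : (x : ℝ) ^ ρ' ≤ x / q := by
    rw [le_div_iff₀ hq0]
    calc (x : ℝ) ^ ρ' * q ≤ (x : ℝ) ^ ρ' * (x : ℝ) ^ (1 - ρ') := by gcongr
      _ = x := by
          rw [← Real.rpow_add hx0]
          simp
  have e1 : (0 : ℝ) ≤ (Y₀ : ℝ) := Nat.cast_nonneg _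
  have e2 : (0 : ℝ) ≤ (Y₁ : ℝ) := Nat.cast_nonneg _
  have hYbig : (Y₀ : ℝ) + Y₁ + 4 ≤ Y := by linarith
  have hY2 : (x : ℝ) ^ ρ' ≤ 2 * Y := by linarith
  have hYY₀ : Y₀ ≤ Y := by
    have : (Y₀ : ℝ) ≤ Y := by linarith
    exact_mod_cast this
  have hYY₁ : Y₁ ≤ Y := by
    have : (Y₁ : ℝ) ≤ Y := by linarith
    exact_mod_cast this
  have hY0 : (0 : ℝ) < Y := by linarith
  have hqY : q * Y ≤ x := by
    rw [hY]
    exact Nat.mul_div_le _ _
  have hlogY : L ≤ Real.log Y / (ρ' / 2) := by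
    rw [le_div_iff₀ (by positivity)]
    have g1 := Real.log_le_log (by positivity) hY2
    rw [Real.log_rpow hx0, Real.log_mul (by norm_num) hY0.ne', ← hLd] at g1
    have g2 : Real.log 2 ≤ 1 := by
      have := Real.log_two_lt_d9
      linarith
    have g3 : 2 / ρ' ≤ L := by linarith
    rw [div_le_iff₀ hρ'] at g3
    linarith
  -- the parameter `z`
  obtain ⟨z, hz⟩ : ∃ z : ℕ, z = ⌈L ^ (A + 4)⌉₊ := ⟨_, rfl⟩
  have hzge : L ^ (A + 4) ≤ z := by
    rw [hz]
    exact Nat.le_ceil _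
  have hzle : (z : ℝ) ≤ 2 * L ^ (A + 4) := by
    have g1 : (z : ℝ) < L ^ (A + 4) + 1 := by
      rw [hz]
      exact Nat.ceil_lt_add_one (by positivity)
    have g2 : 1 ≤ L ^ (A + 4) := one_le_pow₀ hL1
    linarith
  have hz0 : (0 : ℝ) < z := lt_of_lt_of_le (by positivity) hzge
  have hz1 : 1 ≤ z := by exact_mod_cast hz0
  have hP0z : P₀ ≤ z := by
    have g1 : L ≤ L ^ (A + 4) := le_self_pow₀ hL1 (by omega)
    have : (P₀ : ℝ) ≤ z := by linarith
    exact_mod_cast this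
  have hsx : (x : ℝ) ^ (1 / 4 : ℝ) * (x : ℝ) ^ (1 / 4 : ℝ) * ((x : ℝ) ^ (1 / 4 : ℝ) * (x : ℝ) ^ (1 / 4 : ℝ)) = x := by
    rw [← Real.rpow_add hx0, ← Real.rpow_add hx0]
    norm_num
  obtain ⟨u, hu⟩ : ∃ u, u = (x : ℝ) ^ (1 / 4 : ℝ) := ⟨_, rfl⟩
  rw [← hu] at hsx hLx
  have hu10 : 10 ≤ u := by
    have g1 : L ≤ L ^ (A + 4) := le_self_pow₀ hL1 (by omega)
    linarith
  have hzx : z ≤ 2 * x := by
    have : (z : ℝ) ≤ 2 * x := by
      calc (z : ℝ) ≤ 2 * u := by linarith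
        _ ≤ 2 * (u * u * (u * u)) := by
            have : 1 ≤ u * (u * u) := by nlinarith
            nlinarith
        _ = 2 * x := by rw [hsx]
    exact_mod_cast this
  have hsqrt : Real.sqrt (2 * x) ≤ x / L ^ (A + 4) := by
    rw [le_div_iff₀ (by positivity)]
    have g1 : Real.sqrt (2 * x) ≤ 2 * (u * u) := by
      apply Real.sqrt_le_iff.2
      refine ⟨by positivity, ?_⟩
      calc 2 * (x : ℝ) = 2 * (u * u * (u * u)) := by rw [hsx]
        _ ≤ (2 * (u * u)) ^ 2 := by nlinarith [mul_nonneg (show 0 ≤ u * u by positivity) (show 0 ≤ u * u by positivity)]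
    calc Real.sqrt (2 * x) * L ^ (A + 4) ≤ 2 * (u * u) * u := by gcongr
      _ ≤ u * u * (u * u) := by nlinarith [mul_pos (show 0 < u by linarith) (show 0 < u by linarith)]
      _ = x := hsx
  -- the weights
  obtain ⟨wb, hwb⟩ : ∃ wb : ℕ → ℕ → ℂ, wb = fun β m => w m * (kap P₀ (q * m + β) : ℂ) := ⟨_, rfl⟩
  have hwb1 : ∀ β n, ‖wb β n‖ ≤ 1 := by
    intro β n
    rw [hwb]
    simp only
    rw [norm_mul, Complex.norm_real, Real.norm_eq_abs]
    exact mul_le_one₀ (hw n) (abs_nonneg _) (kap_abs _ _)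
  obtain ⟨Ex, hEx⟩ : ∃ Ex : ℕ → Finset ℕ, Ex = fun β => (Icc 1 x).filter (fun b => ¬ ∀ y : ℕ, q * y ≤ x →
      ‖∑ m ∈ Icc 1 y, wb β m * th m * lio (q * m + b)‖ ≤ η * (x / q)) := ⟨_, rfl⟩
  have hExc : ∀ β, ((Ex β).card : ℝ) ≤ x / L ^ (A + 1) := by
    intro β
    rw [hEx]
    exact (hD4 (wb β) (hwb1 β)).2
  obtain ⟨T, hT⟩ : ∃ T : ℕ → ℝ, T = fun b => ∑ m ∈ Icc 1 Y, ArithmeticFunction.vonMangoldt m *
      ∑ p ∈ (Ioc z (2 * x)).filter Nat.Prime, (if p ^ 2 ∣ q * m + b then (1 : ℝ) else 0) := ⟨_, rfl⟩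
  have hT0 : ∀ b, 0 ≤ T b := by
    intro b
    rw [hT]
    exact sum_nonneg fun m _ => mul_nonneg ArithmeticFunction.vonMangoldt_nonneg
      (sum_nonneg fun _ _ => by split_ifs <;> norm_num)
  have hsub : (Icc 1 x).filter (fun b => b.Coprime q ∧ ∃ y : ℕ, q * y ≤ x ∧
      ε * (x / q) < ‖∑ m ∈ Icc 1 y, w m * (ArithmeticFunction.vonMangoldt m : ℝ) *
        ((ArithmeticFunction.moebius (q * m + b) : ℤ) : ℂ)‖) ⊆
      ((range M).biUnion Ex) ∪ (Icc 1 x).filter (fun b => ε / 2 * Y ≤ T b) := by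
    intro b hb'
    rw [mem_filter] at hb'
    obtain ⟨hb1, hbq, y, hy, hbad⟩ := hb'
    rw [mem_union]
    by_cases hEb : b ∈ Ex (b % M)
    · exact Or.inl (mem_biUnion.2 ⟨b % M, mem_range.2 (Nat.mod_lt _ hM1), hEb⟩)
    · right
      rw [mem_filter]
      refine ⟨hb1, ?_⟩
      rw [mem_Icc] at hb1
      have hyY : y ≤ Y := by
        rw [hY]
        exact (Nat.le_div_iff_mul_le hq1).2 (by rw [mul_comm]; exact hy)
      have hgood : ‖∑ m ∈ Icc 1 y, wb (b % M) m * th m * lio (q * m + b)‖ ≤ η * (x / q) := by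
        rw [hEx] at hEb
        simp only at hEb
        rw [mem_filter] at hEb
        by_contra hcon
        exact hEb ⟨mem_Icc.2 hb1, fun hall => hcon (hall y hy)⟩
      have hkap : ∀ m, wb (b % M) m = w m * (kap P₀ (q * m + b) : ℂ) := by
        intro m
        rw [hwb]
        simp only
        rw [hM, kap_mod]
      have h5 : ‖∑ m ∈ Icc 1 y, wb (b % M) m * (ArithmeticFunction.vonMangoldt m : ℝ) * lio (q * m + b)‖ ≤
          ‖∑ m ∈ Icc 1 y, wb (b % M) m * th m * lio (q * m + b)‖ +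
            ∑ m ∈ Icc 1 Y, (ArithmeticFunction.vonMangoldt m - th m) :=
        lam_sum cm_lio.bd (hwb1 (b % M)) y Y hyY (fun n => q * n + b)
      have h6 := hth Y hYY₀
      -- the difference
      have h7 : ‖∑ m ∈ Icc 1 y, w m * (ArithmeticFunction.vonMangoldt m : ℝ) *
          ((ArithmeticFunction.moebius (q * m + b) : ℤ) : ℂ) -
          ∑ m ∈ Icc 1 y, wb (b % M) m * (ArithmeticFunction.vonMangoldt m : ℝ) * lio (q * m + b)‖ ≤
          ε / 8 * Y + T b := by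
        rw [← sum_sub_distrib]
        have h8 : ∀ m ∈ Icc 1 y, ‖w m * (ArithmeticFunction.vonMangoldt m : ℝ) *
            ((ArithmeticFunction.moebius (q * m + b) : ℤ) : ℂ) -
            wb (b % M) m * (ArithmeticFunction.vonMangoldt m : ℝ) * lio (q * m + b)‖ ≤
            ArithmeticFunction.vonMangoldt m * ∑ p ∈ (Ioc P₀ z).filter Nat.Prime,
              (if p ^ 2 ∣ q * m + b then (1 : ℝ) else 0) +
            ArithmeticFunction.vonMangoldt m * ∑ p ∈ (Ioc z (2 * x)).filter Nat.Prime,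
              (if p ^ 2 ∣ q * m + b then (1 : ℝ) else 0) := by
          intro m hm
          rw [mem_Icc] at hm
          rw [hkap]
          have h9 : w m * (ArithmeticFunction.vonMangoldt m : ℝ) *
              ((ArithmeticFunction.moebius (q * m + b) : ℤ) : ℂ) -
              w m * (kap P₀ (q * m + b) : ℂ) * (ArithmeticFunction.vonMangoldt m : ℝ) * lio (q * m + b) =
              w m * (ArithmeticFunction.vonMangoldt m : ℝ) *
              (((ArithmeticFunction.moebius (q * m + b) : ℤ) : ℂ) - (kap P₀ (q * m + b) : ℂ) * lio (q * m + b)) := by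
            ring
          have h10 : q * m + b ≤ 2 * x := by
            have : q * m ≤ q * y := Nat.mul_le_mul_left q hm.2
            omega
          have h11 := mu_kap (P₀ := P₀) (n := q * m + b) (X := 2 * x) (by omega) h10
          have h12 : (Ioc P₀ (2 * x)).filter Nat.Prime =
              (Ioc P₀ z).filter Nat.Prime ∪ (Ioc z (2 * x)).filter Nat.Prime := by
            rw [← filter_union, Ioc_union_Ioc_eq_Ioc hP0z hzx]
          have h13 : Disjoint ((Ioc P₀ z).filter Nat.Prime) ((Ioc z (2 * x)).filter Nat.Prime) := by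
            rw [disjoint_left]
            intro p k1 k2
            rw [mem_filter, mem_Ioc] at k1 k2
            omega
          rw [h12, sum_union h13] at h11
          rw [h9, norm_mul, norm_mul, Complex.norm_real, Real.norm_of_nonneg ArithmeticFunction.vonMangoldt_nonneg,
            ← mul_add]
          refine mul_le_mul ?_ h11 (norm_nonneg _) ArithmeticFunction.vonMangoldt_nonneg
          exact mul_le_of_le_one_left ArithmeticFunction.vonMangoldt_nonneg (hw m)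
        refine (norm_sum_le _ _).trans ((sum_le_sum h8).trans ?_)
        rw [sum_add_distrib]
        have hpos : ∀ (S : Finset ℕ) (m : ℕ), 0 ≤ ArithmeticFunction.vonMangoldt m * ∑ p ∈ S,
              (if p ^ 2 ∣ q * m + b then (1 : ℝ) else 0) := fun S m =>
          mul_nonneg ArithmeticFunction.vonMangoldt_nonneg (sum_nonneg fun _ _ => by split_ifs <;> norm_num)
        have k1 := ht1 Y hYY₁ x z (by rw [← hLd]; exact hlogY) (by rw [← hLd]; exact hzle) q b hbq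
        have k2 : ∑ m ∈ Icc 1 y, ArithmeticFunction.vonMangoldt m * ∑ p ∈ (Ioc P₀ z).filter Nat.Prime,
              (if p ^ 2 ∣ q * m + b then (1 : ℝ) else 0) ≤
            ∑ m ∈ Icc 1 Y, ArithmeticFunction.vonMangoldt m * ∑ p ∈ (Ioc P₀ z).filter Nat.Prime,
              (if p ^ 2 ∣ q * m + b then (1 : ℝ) else 0) :=
          sum_le_sum_of_subset_of_nonneg (Icc_subset_Icc le_rfl hyY) fun m _ _ => hpos _ m
        have k3 : ∑ m ∈ Icc 1 y, ArithmeticFunction.vonMangoldt m * ∑ p ∈ (Ioc z (2 * x)).filter Nat.Prime,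
              (if p ^ 2 ∣ q * m + b then (1 : ℝ) else 0) ≤ T b := by
          rw [hT]
          exact sum_le_sum_of_subset_of_nonneg (Icc_subset_Icc le_rfl hyY) fun m _ _ => hpos _ m
        linarith
      have h8 := norm_le_norm_add_norm_sub' (∑ m ∈ Icc 1 y, w m * (ArithmeticFunction.vonMangoldt m : ℝ) *
          ((ArithmeticFunction.moebius (q * m + b) : ℤ) : ℂ))
          (∑ m ∈ Icc 1 y, wb (b % M) m * (ArithmeticFunction.vonMangoldt m : ℝ) * lio (q * m + b))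
      have h9 : η * ((x : ℝ) / q) ≤ ε / 8 * (x / q) := by gcongr
      have h10 : ε * (Y : ℝ) ≤ ε * (x / q) := by gcongr
      have h11 : 0 ≤ ε * (Y : ℝ) := by positivity
      have h12 := lt_of_lt_of_le hbad h8
      have h13 : ε / 2 * (Y : ℝ) = ε * Y / 2 := by ring
      have h14 : ε / 8 * (Y : ℝ) = ε * Y / 8 := by ring
      have h15 : ε / 8 * ((x : ℝ) / q) = ε * (x / q) / 8 := by ring
      rw [h13]
      rw [h14] at h6 h7
      rw [h15] at h9
      linarith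
  have hU : (((range M).biUnion Ex).card : ℝ) ≤ x / L ^ A * (1 / 2) := by
    calc (((range M).biUnion Ex).card : ℝ) ≤ ((∑ β ∈ range M, (Ex β).card : ℕ) : ℝ) := by
          exact_mod_cast card_biUnion_le
      _ ≤ ∑ β ∈ range M, (x : ℝ) / L ^ (A + 1) := by
          rw [Nat.cast_sum]
          exact sum_le_sum fun β _ => hExc β
      _ = M * (x / L ^ (A + 1)) := by rw [sum_const, card_range, nsmul_eq_mul]
      _ = x / L ^ A * (M / L) := by
          rw [pow_succ]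
          field_simp
      _ ≤ x / L ^ A * (1 / 2) := by
          refine mul_le_mul_of_nonneg_left ?_ (by positivity)
          rw [div_le_div_iff₀ hL0 (by norm_num)]
          linarith
  have hV : (((Icc 1 x).filter (fun b => ε / 2 * Y ≤ T b)).card : ℝ) ≤ x / L ^ A * (1 / 2) := by
    have h1 := tail2 (x := x) (q := q) (Y := Y) (z := z) hqY hz1
    have h2 : (((Icc 1 x).filter (fun b => ε / 2 * Y ≤ T b)).card : ℝ) * (ε / 2 * Y) ≤ ∑ b ∈ Icc 1 x, T b := by
      calc (((Icc 1 x).filter (fun b => ε / 2 * Y ≤ T b)).card : ℝ) * (ε / 2 * Y) =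
          ∑ b ∈ (Icc 1 x).filter (fun b => ε / 2 * Y ≤ T b), ε / 2 * Y := by rw [sum_const, nsmul_eq_mul]
        _ ≤ ∑ b ∈ (Icc 1 x).filter (fun b => ε / 2 * Y ≤ T b), T b := sum_le_sum fun b hb => (mem_filter.1 hb).2
        _ ≤ _ := sum_le_sum_of_subset_of_nonneg (filter_subset _ _) fun b _ _ => hT0 b
    have h3 : ∑ b ∈ Icc 1 x, T b ≤ 6 * Y * ((x : ℝ) / z + Real.sqrt (2 * x)) := by
      rw [hT]
      exact h1
    have h4 : (x : ℝ) / z ≤ x / L ^ (A + 4) := by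
      apply div_le_div_of_nonneg_left hx0.le (by positivity) hzge
    have h5 : (((Icc 1 x).filter (fun b => ε / 2 * Y ≤ T b)).card : ℝ) ≤
        6 * Y * ((x : ℝ) / L ^ (A + 4) + x / L ^ (A + 4)) / (ε / 2 * Y) := by
      rw [le_div_iff₀ (by positivity)]
      refine h2.trans (h3.trans ?_)
      gcongr
    refine h5.trans ?_
    calc 6 * Y * ((x : ℝ) / L ^ (A + 4) + x / L ^ (A + 4)) / (ε / 2 * Y) = x / L ^ A * (24 / ε / L ^ 4) := by
          rw [pow_add]
          field_simp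
          ring
      _ ≤ x / L ^ A * (1 / 2) := by
          refine mul_le_mul_of_nonneg_left ?_ (by positivity)
          rw [div_le_iff₀ (by positivity)]
          have g1 : L ≤ L ^ 4 := le_self_pow₀ hL1 (by norm_num)
          have g2 : 48 / ε ≤ L := by linarith
          have g3 : 24 / ε = 48 / ε / 2 := by ring
          rw [g3]
          linarith
  calc _ ≤ (((((range M).biUnion Ex) ∪ (Icc 1 x).filter (fun b => ε / 2 * Y ≤ T b)).card : ℕ) : ℝ) :=
        Nat.cast_le.2 (card_le_card hsub)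
    _ ≤ (((range M).biUnion Ex).card : ℝ) + (((Icc 1 x).filter (fun b => ε / 2 * Y ≤ T b)).card : ℝ) := by
        exact_mod_cast card_union_le _ _
    _ ≤ x / L ^ A := by linarith

end Pool.Agent.H579.Q
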