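import Pool.Agent.H579.Q.MuMain

set_option autoImplicit false

/-! The Moebius function at shifted primes, the shifts from a residue class. -/

namespace Pool.Agent.H579.Q

open Finset
open Pool.Agent.Y614.GJ.Core (P ev_log)
open Pool.Agent.H579.L

/-- the integers divisible by the square of a large prime -/
lemma cnt_sq {x c z : ℕ} (hc : c ≤ x) (hz : 1 ≤ z) :
    ∑ b ∈ Icc 1 x, ∑ p ∈ (Ioc z (2 * x)).filter Nat.Prime,
      (if p ^ 2 ∣ b + c then (1 : ℝ) else 0) ≤ (x : ℝ) / z + Real.sqrt (2 * x) := by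
  rw [sum_comm]
  have h2 : ∀ p ∈ (Ioc z (2 * x)).filter Nat.Prime, ∑ b ∈ Icc 1 x, (if p ^ 2 ∣ b + c then (1 : ℝ) else 0) ≤
      if p ≤ Nat.sqrt (2 * x) then (x : ℝ) * ((p : ℝ) ^ 2)⁻¹ + 1 else 0 := by
    intro p hp
    rw [mem_filter, mem_Ioc] at hp
    rw [← sum_filter, sum_const, nsmul_eq_mul, mul_one]
    split_ifs with hps
    · have h3 : ((Icc 1 x).filter (fun b => p ^ 2 ∣ b + c)).card ≤ x / p ^ 2 + 1 := by
        have hp2 : 0 < p ^ 2 := Nat.pos_of_ne_zero (pow_ne_zero 2 hp.2.pos.ne')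
        have h4 : ((Icc 1 x).filter (fun b => p ^ 2 ∣ b + c)).card ≤
            (range (x / p ^ 2 + 1)).card := by
          refine card_le_card_of_injOn (fun b => (b - 1) / p ^ 2) ?_ ?_
          · intro b hb
            rw [coe_filter, Set.mem_ofPred_eq, mem_Icc] at hb
            rw [coe_range, Set.mem_Iio]
            exact Nat.lt_succ_of_le (Nat.div_le_div_right (by omega))
          · intro b hb b' hb' heq
            rw [coe_filter, Set.mem_ofPred_eq, mem_Icc] at hb hb'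
            have h5 : (b : ℤ) ≡ b' [ZMOD (p ^ 2 : ℕ)] := by
              have h6 : ((p ^ 2 : ℕ) : ℤ) ∣ ((b' + c : ℕ) : ℤ) - ((b + c : ℕ) : ℤ) :=
                dvd_sub (by exact_mod_cast hb'.2) (by exact_mod_cast hb.2)
              rw [Int.modEq_iff_dvd]
              convert h6 using 1
              push_cast
              ring
            have h6 : b % p ^ 2 = b' % p ^ 2 := by
              have := (Int.natCast_modEq_iff.1 h5)
              exact this
            have h7 : (b - 1) % p ^ 2 = (b' - 1) % p ^ 2 := by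
              have h8 : (b - 1) + 1 ≡ (b' - 1) + 1 [MOD p ^ 2] := by
                rw [Nat.sub_add_cancel hb.1.1, Nat.sub_add_cancel hb'.1.1]
                exact h6
              exact Nat.ModEq.add_right_cancel' 1 h8
            simp only at heq
            have h9 := Nat.div_add_mod (b - 1) (p ^ 2)
            have h10 := Nat.div_add_mod (b' - 1) (p ^ 2)
            rw [heq, h7] at h9
            omega
        rwa [card_range] at h4
      have h4 : ((x / p ^ 2 : ℕ) : ℝ) ≤ (x : ℝ) * ((p : ℝ) ^ 2)⁻¹ := by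
        refine Nat.cast_div_le.trans (le_of_eq ?_)
        push_cast
        ring
      calc (((Icc 1 x).filter (fun b => p ^ 2 ∣ b + c)).card : ℝ) ≤ ((x / p ^ 2 + 1 : ℕ) : ℝ) := by
            exact_mod_cast h3
        _ ≤ _ := by
            push_cast
            linarith
    · have h3 : (Icc 1 x).filter (fun b => p ^ 2 ∣ b + c) = ∅ := by
        rw [filter_eq_empty_iff]
        intro b hb hdvd
        rw [mem_Icc] at hb
        have h4 := Nat.le_of_dvd (by omega) hdvd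
        apply hps
        rw [Nat.le_sqrt', ]
        omega
      rw [h3, card_empty, Nat.cast_zero]
  refine (sum_le_sum h2).trans ?_
  rw [← sum_filter, sum_add_distrib, ← mul_sum, sum_const, nsmul_eq_mul, mul_one]
  refine add_le_add ?_ ?_
  · rw [div_eq_mul_inv]
    refine mul_le_mul_of_nonneg_left ?_ (Nat.cast_nonneg _)
    refine le_trans (sum_le_sum_of_subset_of_nonneg (t := Ioc z (2 * x))
      ((filter_subset _ _).trans (filter_subset _ _)) fun _ _ _ => by positivity) ?_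
    rcases Nat.lt_or_ge z (2 * x) with h | h
    · have := sum_Ioc_inv_sq_le_sub (α := ℝ) (k := z) (n := 2 * x) (by omega) h.le
      have h2 : (0 : ℝ) ≤ ((2 * x : ℕ) : ℝ)⁻¹ := by positivity
      linarith
    · rw [Ioc_eq_empty (by omega), sum_empty]
      positivity
  · have h3 : (((Ioc z (2 * x)).filter Nat.Prime).filter (fun p => p ≤ Nat.sqrt (2 * x))) ⊆
        Icc 1 (Nat.sqrt (2 * x)) := by
      intro p hp
      rw [mem_filter, mem_filter] at hp
      rw [mem_Icc]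
      exact ⟨hp.1.2.one_lt.le, hp.2⟩
    have h4 := card_le_card h3
    rw [Nat.card_Icc, Nat.add_sub_cancel] at h4
    have h5 : (Nat.sqrt (2 * x) : ℝ) ≤ Real.sqrt (2 * x) := by
      have := Real.nat_sqrt_le_real_sqrt (a := 2 * x)
      push_cast at this
      exact this
    exact le_trans (by exact_mod_cast h4) h5

open Classical in
theorem mu_shifts (ρ ε : ℝ) (hρ : 0 < ρ) (hε : 0 < ε) (A : ℕ) :
    ∃ c : ℕ, ∀ B : ℕ, ∃ x₀ : ℕ, ∀ x : ℕ, x₀ ≤ x →
    ∃ D : Finset ℕ, (D.card : ℝ) ≤ Real.log x ^ c ∧ (∀ d ∈ D, Real.log x ^ B < (d : ℝ)) ∧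
    ∀ q : ℕ, 1 ≤ q → (q : ℝ) ≤ (x : ℝ) ^ (1 - ρ) → (∀ d ∈ D, ¬ d ∣ q) → ∀ w : ℕ → ℂ, (∀ n, ‖w n‖ ≤ 1) →
    ∀ a : ℕ, (((Icc 1 x).filter (fun h => h ≡ a [MOD q] ∧ ∃ y : ℕ, y ≤ x ∧
      ε * x < ‖∑ n ∈ Icc 1 y, w n * (ArithmeticFunction.vonMangoldt n : ℝ) *
        ((ArithmeticFunction.moebius (n + h) : ℤ) : ℂ)‖)).card : ℝ) ≤ x / (q * Real.log x ^ A) := by
  obtain ⟨η, hη⟩ : ∃ η : ℝ, η = min (ε / 8) 1 := ⟨_, rfl⟩
  have hη0 : 0 < η := by
    rw [hη]
    exact lt_min (by positivity) (by norm_num)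
  have hη1 : η ≤ 1 := by
    rw [hη]
    exact min_le_right _ _
  have hηε : η ≤ ε / 8 := by
    rw [hη]
    exact min_le_left _ _
  obtain ⟨ρ', hρ'd⟩ : ∃ ρ' : ℝ, ρ' = min ρ (1 / 2) := ⟨_, rfl⟩
  have hρ' : 0 < ρ' := by
    rw [hρ'd]
    exact lt_min hρ (by norm_num)
  have hρ'1 : ρ' ≤ 1 / 2 := by
    rw [hρ'd]
    exact min_le_right _ _
  have hρ'ρ : ρ' ≤ ρ := by
    rw [hρ'd]
    exact min_le_left _ _
  obtain ⟨c, hc⟩ := genP_main (ρ := ρ') (ε := η) (A + 1) hρ' (by linarith) hη0 hη1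
  obtain ⟨Y₀, hth⟩ := lam_th (ε := ε / 8) (by positivity)
  obtain ⟨P₀, Y₁, hP1, ht1⟩ := tail1 (ρ := 1 / 2) (ε := ε / 8) (by norm_num) (by positivity) 2
  obtain ⟨M, hM⟩ : ∃ M : ℕ, M = P₀.factorial ^ 2 := ⟨_, rfl⟩
  have hM1 : 1 ≤ M := by
    rw [hM]
    exact Nat.pos_of_ne_zero (pow_ne_zero 2 (Nat.factorial_ne_zero _))
  obtain ⟨N₂, hN₂⟩ := Filter.eventually_atTop.1 (ev_log 2 (s := 1 / 4) (by norm_num)
    (10 + M + 16 / ε + P₀))
  refine ⟨c, fun B => ?_⟩
  obtain ⟨K, U, x₀, h⟩ := hc B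
  obtain ⟨N₀, hN⟩ := sw_of_sup (F := lio) cm_lio.bd sup_lio K U
  refine ⟨max (max x₀ N₀) (max (max (Y₀ + Y₁) N₂) 1), fun x hx => ?_⟩
  have hx₀ : x₀ ≤ x := le_trans (le_trans (le_max_left _ _) (le_max_left _ _)) hx
  have hxN : N₀ ≤ 2 * x := by
    have : N₀ ≤ x := le_trans (le_trans (le_max_right _ _) (le_max_left _ _)) hx
    omega
  have hxr := le_trans (le_max_right _ _) hx
  have hxN₁ : Y₀ + Y₁ ≤ x := le_trans (le_trans (le_max_left _ _) (le_max_left _ _)) hxr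
  have hxN₂ : N₂ ≤ x := le_trans (le_trans (le_max_right _ _) (le_max_left _ _)) hxr
  have hx1 : 1 ≤ x := le_trans (le_max_right _ _) hxr
  have hx0 : (0 : ℝ) < x := by exact_mod_cast hx1
  have hxr1 : (1 : ℝ) ≤ x := by exact_mod_cast hx1
  obtain ⟨hL, hLx⟩ := hN₂ x hxN₂
  obtain ⟨L, hLd⟩ : ∃ L, L = Real.log (x : ℝ) := ⟨_, rfl⟩
  rw [← hLd] at hL hLx
  have f1 : (0 : ℝ) ≤ (M : ℝ) := Nat.cast_nonneg _
  have f2 : 0 < 16 / ε := by positivity
  have f3 : (0 : ℝ) ≤ (P₀ : ℝ) := Nat.cast_nonneg _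
  have hL10 : 10 ≤ L := by linarith
  have hL0 : 0 < L := by linarith
  have hL1 : 1 ≤ L := by linarith
  have hML : (M : ℝ) ≤ L := by linarith
  obtain ⟨D, hD1, hD2, hD3⟩ := h x hx₀ lio cm_lio (hN (2 * x) hxN)
  rw [← hLd] at hD1 hD2
  rw [← hLd]
  refine ⟨D, hD1, hD2, fun q hq1 hq hqD w hw a => ?_⟩
  have hq0 : (0 : ℝ) < q := by exact_mod_cast hq1
  have hq' : (q : ℝ) ≤ (x : ℝ) ^ (1 - ρ') := hq.trans (Real.rpow_le_rpow_of_exponent_le hxr1 (by linarith))
  have hD4 := hD3 q hq1 hq' hqD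
  rw [← hLd] at hD4
  -- the parameter `z`
  obtain ⟨z, hz⟩ : ∃ z : ℕ, z = ⌈L ^ 2⌉₊ := ⟨_, rfl⟩
  have hzge : L ^ 2 ≤ z := by
    rw [hz]
    exact Nat.le_ceil _
  have hzle : (z : ℝ) ≤ 2 * L ^ 2 := by
    have g1 : (z : ℝ) < L ^ 2 + 1 := by
      rw [hz]
      exact Nat.ceil_lt_add_one (by positivity)
    have g2 : 1 ≤ L ^ 2 := one_le_pow₀ hL1
    linarith
  have hz0 : (0 : ℝ) < z := lt_of_lt_of_le (by positivity) hzge
  have hz1 : 1 ≤ z := by exact_mod_cast hz0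
  have hP0z : P₀ ≤ z := by
    have g1 : L ≤ L ^ 2 := le_self_pow₀ hL1 (by omega)
    have : (P₀ : ℝ) ≤ z := by linarith
    exact_mod_cast this
  have hsx : (x : ℝ) ^ (1 / 4 : ℝ) * (x : ℝ) ^ (1 / 4 : ℝ) * ((x : ℝ) ^ (1 / 4 : ℝ) * (x : ℝ) ^ (1 / 4 : ℝ)) = x := by
    rw [← Real.rpow_add hx0, ← Real.rpow_add hx0]
    norm_num
  obtain ⟨u, hu⟩ : ∃ u, u = (x : ℝ) ^ (1 / 4 : ℝ) := ⟨_, rfl⟩
  rw [← hu] at hsx hLx
  have hu10 : 10 ≤ u := by
    have g1 : L ≤ L ^ 2 := le_self_pow₀ hL1 (by omega)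
    linarith
  have hzx : z ≤ 2 * x := by
    have : (z : ℝ) ≤ 2 * x := by
      calc (z : ℝ) ≤ 2 * u := by linarith
        _ ≤ 2 * (u * u * (u * u)) := by
            have : 1 ≤ u * (u * u) := by nlinarith
            nlinarith
        _ = 2 * x := by rw [hsx]
    exact_mod_cast this
  have hsqrt : Real.sqrt (2 * x) ≤ x / L ^ 2 := by
    rw [le_div_iff₀ (by positivity)]
    have g1 : Real.sqrt (2 * x) ≤ 2 * (u * u) := by
      apply Real.sqrt_le_iff.2
      refine ⟨by positivity, ?_⟩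
      calc 2 * (x : ℝ) = 2 * (u * u * (u * u)) := by rw [hsx]
        _ ≤ (2 * (u * u)) ^ 2 := by nlinarith [mul_nonneg (show 0 ≤ u * u by positivity) (show 0 ≤ u * u by positivity)]
    calc Real.sqrt (2 * x) * L ^ 2 ≤ 2 * (u * u) * u := by gcongr
      _ ≤ u * u * (u * u) := by nlinarith [mul_pos (show 0 < u by linarith) (show 0 < u by linarith)]
      _ = x := hsx
  have hxx : Real.log x ≤ Real.log x / (1 / 2) := by
    rw [← hLd]
    linarith
  -- the large primes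
  have hT : ∀ b : ℕ, b ≤ x → ∑ m ∈ Icc 1 x, ArithmeticFunction.vonMangoldt m *
      ∑ p ∈ (Ioc z (2 * x)).filter Nat.Prime, (if p ^ 2 ∣ m + b then (1 : ℝ) else 0) ≤ ε / 8 * x := by
    intro b hb
    have g1 := cnt_sq (z := z) hb hz1
    have g2 : ∑ m ∈ Icc 1 x, ArithmeticFunction.vonMangoldt m *
        ∑ p ∈ (Ioc z (2 * x)).filter Nat.Prime, (if p ^ 2 ∣ m + b then (1 : ℝ) else 0) ≤
        ∑ m ∈ Icc 1 x, L * ∑ p ∈ (Ioc z (2 * x)).filter Nat.Prime, (if p ^ 2 ∣ m + b then (1 : ℝ) else 0) := by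
      refine sum_le_sum fun m hm => mul_le_mul_of_nonneg_right ?_ (sum_nonneg fun _ _ => by split_ifs <;> norm_num)
      rw [mem_Icc] at hm
      refine ArithmeticFunction.vonMangoldt_le_log.trans ?_
      rw [hLd]
      exact Real.log_le_log (by exact_mod_cast hm.1) (by exact_mod_cast hm.2)
    rw [← mul_sum] at g2
    have g3 : (x : ℝ) / z ≤ x / L ^ 2 := by
      apply div_le_div_of_nonneg_left hx0.le (by positivity) hzge
    have g4 : L * ((x : ℝ) / z + Real.sqrt (2 * x)) ≤ L * (x / L ^ 2 + x / L ^ 2) := by gcongr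
    have g5 : L * ((x : ℝ) / L ^ 2 + x / L ^ 2) = 2 / L * x := by
      field_simp
      ring
    have g6 : 2 / L ≤ ε / 8 := by
      rw [div_le_iff₀ hL0]
      have g7 : 16 / ε ≤ L := by linarith
      rw [div_le_iff₀ hε] at g7
      linarith
    calc _ ≤ _ := g2
      _ ≤ L * ((x : ℝ) / z + Real.sqrt (2 * x)) := by gcongr
      _ ≤ _ := g4
      _ = 2 / L * x := g5
      _ ≤ _ := by gcongr
  -- the weights
  obtain ⟨wb, hwb⟩ : ∃ wb : ℕ → ℕ → ℂ, wb = fun β m => w m * (kap P₀ (1 * m + β) : ℂ) := ⟨_, rfl⟩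
  have hwb1 : ∀ β n, ‖wb β n‖ ≤ 1 := by
    intro β n
    rw [hwb]
    simp only
    rw [norm_mul, Complex.norm_real, Real.norm_eq_abs]
    exact mul_le_one₀ (hw n) (abs_nonneg _) (kap_abs _ _)
  obtain ⟨Ex, hEx⟩ : ∃ Ex : ℕ → Finset ℕ, Ex = fun β => (Icc 1 x).filter (fun b => b ≡ a [MOD q] ∧
      ¬ ∀ y : ℕ, y ≤ x → ‖∑ m ∈ Icc 1 y, wb β m * th m * lio (m + b)‖ ≤ η * x) := ⟨_, rfl⟩
  have hExc : ∀ β, ((Ex β).card : ℝ) ≤ x / (q * L ^ (A + 1)) := by
    intro β
    rw [hEx]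
    exact (hD4 (wb β) (hwb1 β)).1 a
  have hsub : (Icc 1 x).filter (fun b => b ≡ a [MOD q] ∧ ∃ y : ℕ, y ≤ x ∧
      ε * x < ‖∑ m ∈ Icc 1 y, w m * (ArithmeticFunction.vonMangoldt m : ℝ) *
        ((ArithmeticFunction.moebius (m + b) : ℤ) : ℂ)‖) ⊆ (range M).biUnion Ex := by
    intro b hb'
    rw [mem_filter] at hb'
    obtain ⟨hb1, hbq, y, hyY, hbad⟩ := hb'
    by_contra hcon0
    have hEb : b ∉ Ex (b % M) := fun hEb =>
      hcon0 (mem_biUnion.2 ⟨b % M, mem_range.2 (Nat.mod_lt _ hM1), hEb⟩)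
    rw [mem_Icc] at hb1
    have hgood : ‖∑ m ∈ Icc 1 y, wb (b % M) m * th m * lio (m + b)‖ ≤ η * x := by
      rw [hEx] at hEb
      simp only at hEb
      rw [mem_filter] at hEb
      by_contra hcon
      exact hEb ⟨mem_Icc.2 hb1, hbq, fun hall => hcon (hall y hyY)⟩
    have hkap : ∀ m, wb (b % M) m = w m * (kap P₀ (1 * m + b) : ℂ) := by
      intro m
      rw [hwb]
      simp only
      rw [hM, kap_mod]
    have h5 : ‖∑ m ∈ Icc 1 y, wb (b % M) m * (ArithmeticFunction.vonMangoldt m : ℝ) * lio (m + b)‖ ≤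
        ‖∑ m ∈ Icc 1 y, wb (b % M) m * th m * lio (m + b)‖ +
          ∑ m ∈ Icc 1 x, (ArithmeticFunction.vonMangoldt m - th m) :=
      lam_sum cm_lio.bd (hwb1 (b % M)) y x hyY (fun n => n + b)
    have h6 := hth x (by omega)
    -- the difference
    have h7 : ‖∑ m ∈ Icc 1 y, w m * (ArithmeticFunction.vonMangoldt m : ℝ) *
        ((ArithmeticFunction.moebius (m + b) : ℤ) : ℂ) -
        ∑ m ∈ Icc 1 y, wb (b % M) m * (ArithmeticFunction.vonMangoldt m : ℝ) * lio (m + b)‖ ≤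
        ε / 8 * x + ε / 8 * x := by
      rw [← sum_sub_distrib]
      have h8 : ∀ m ∈ Icc 1 y, ‖w m * (ArithmeticFunction.vonMangoldt m : ℝ) *
          ((ArithmeticFunction.moebius (m + b) : ℤ) : ℂ) -
          wb (b % M) m * (ArithmeticFunction.vonMangoldt m : ℝ) * lio (m + b)‖ ≤
          ArithmeticFunction.vonMangoldt m * ∑ p ∈ (Ioc P₀ z).filter Nat.Prime,
            (if p ^ 2 ∣ 1 * m + b then (1 : ℝ) else 0) +
          ArithmeticFunction.vonMangoldt m * ∑ p ∈ (Ioc z (2 * x)).filter Nat.Prime,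
            (if p ^ 2 ∣ m + b then (1 : ℝ) else 0) := by
        intro m hm
        rw [mem_Icc] at hm
        rw [hkap]
        have h9 : w m * (ArithmeticFunction.vonMangoldt m : ℝ) *
            ((ArithmeticFunction.moebius (m + b) : ℤ) : ℂ) -
            w m * (kap P₀ (1 * m + b) : ℂ) * (ArithmeticFunction.vonMangoldt m : ℝ) * lio (m + b) =
            w m * (ArithmeticFunction.vonMangoldt m : ℝ) *
            (((ArithmeticFunction.moebius (m + b) : ℤ) : ℂ) - (kap P₀ (1 * m + b) : ℂ) * lio (m + b)) := by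
          ring
        have h11 := mu_kap (P₀ := P₀) (n := m + b) (X := 2 * x) (by omega) (by omega)
        have h12 : (Ioc P₀ (2 * x)).filter Nat.Prime =
            (Ioc P₀ z).filter Nat.Prime ∪ (Ioc z (2 * x)).filter Nat.Prime := by
          rw [← filter_union, Ioc_union_Ioc_eq_Ioc hP0z hzx]
        have h13 : Disjoint ((Ioc P₀ z).filter Nat.Prime) ((Ioc z (2 * x)).filter Nat.Prime) := by
          rw [disjoint_left]
          intro p k1 k2
          rw [mem_filter, mem_Ioc] at k1 k2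
          omega
        rw [h12, sum_union h13] at h11
        rw [h9, norm_mul, norm_mul, Complex.norm_real, Real.norm_of_nonneg ArithmeticFunction.vonMangoldt_nonneg,
          ← mul_add, one_mul]
        refine mul_le_mul ?_ h11 (norm_nonneg _) ArithmeticFunction.vonMangoldt_nonneg
        exact mul_le_of_le_one_left ArithmeticFunction.vonMangoldt_nonneg (hw m)
      refine (norm_sum_le _ _).trans ((sum_le_sum h8).trans ?_)
      rw [sum_add_distrib]
      have hpos : ∀ (S : Finset ℕ) (f : ℕ → ℕ) (m : ℕ), 0 ≤ ArithmeticFunction.vonMangoldt m * ∑ p ∈ S,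
            (if p ^ 2 ∣ f m then (1 : ℝ) else 0) := fun S f m =>
        mul_nonneg ArithmeticFunction.vonMangoldt_nonneg (sum_nonneg fun _ _ => by split_ifs <;> norm_num)
      have k1 := ht1 x (by omega) x z hxx (by rw [← hLd]; exact hzle) 1 b (Nat.coprime_one_right b)
      have k2 : ∑ m ∈ Icc 1 y, ArithmeticFunction.vonMangoldt m * ∑ p ∈ (Ioc P₀ z).filter Nat.Prime,
            (if p ^ 2 ∣ 1 * m + b then (1 : ℝ) else 0) ≤
          ∑ m ∈ Icc 1 x, ArithmeticFunction.vonMangoldt m * ∑ p ∈ (Ioc P₀ z).filter Nat.Prime,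
            (if p ^ 2 ∣ 1 * m + b then (1 : ℝ) else 0) :=
        sum_le_sum_of_subset_of_nonneg (Icc_subset_Icc le_rfl hyY) fun m _ _ => hpos _ (fun m => 1 * m + b) m
      have k3 : ∑ m ∈ Icc 1 y, ArithmeticFunction.vonMangoldt m * ∑ p ∈ (Ioc z (2 * x)).filter Nat.Prime,
            (if p ^ 2 ∣ m + b then (1 : ℝ) else 0) ≤
          ∑ m ∈ Icc 1 x, ArithmeticFunction.vonMangoldt m * ∑ p ∈ (Ioc z (2 * x)).filter Nat.Prime,
            (if p ^ 2 ∣ m + b then (1 : ℝ) else 0) :=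
        sum_le_sum_of_subset_of_nonneg (Icc_subset_Icc le_rfl hyY) fun m _ _ => hpos _ (fun m => m + b) m
      have k4 := hT b hb1.2
      linarith
    have h8 := norm_le_norm_add_norm_sub' (∑ m ∈ Icc 1 y, w m * (ArithmeticFunction.vonMangoldt m : ℝ) *
        ((ArithmeticFunction.moebius (m + b) : ℤ) : ℂ))
        (∑ m ∈ Icc 1 y, wb (b % M) m * (ArithmeticFunction.vonMangoldt m : ℝ) * lio (m + b))
    have h9 : η * (x : ℝ) ≤ ε / 8 * x := by gcongr
    have h11 : 0 < ε * (x : ℝ) := by positivity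
    have h12 := lt_of_lt_of_le hbad h8
    have h14 : ε / 8 * (x : ℝ) = ε * x / 8 := by ring
    rw [h14] at h6 h7 h9
    linarith
  calc _ ≤ (((range M).biUnion Ex).card : ℝ) := Nat.cast_le.2 (card_le_card hsub)
    _ ≤ ((∑ β ∈ range M, (Ex β).card : ℕ) : ℝ) := by
        exact_mod_cast card_biUnion_le
    _ ≤ ∑ β ∈ range M, (x : ℝ) / (q * L ^ (A + 1)) := by
        rw [Nat.cast_sum]
        exact sum_le_sum fun β _ => hExc β
    _ = M * (x / (q * L ^ (A + 1))) := by rw [sum_const, card_range, nsmul_eq_mul]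
    _ = x / (q * L ^ A) * (M / L) := by
        rw [pow_succ]
        field_simp
    _ ≤ x / (q * L ^ A) * 1 := by
        refine mul_le_mul_of_nonneg_left ?_ (by positivity)
        rw [div_le_one hL0]
        exact hML
    _ = _ := mul_one _

end Pool.Agent.H579.Q
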