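import Pool.Agent.H579.L.Wl
import Pool.Graph.R_seed8.H442R2.KF.Bv

set_option autoImplicit false

/-! The inequality of Turán and Kubilius for linear forms at the primes. -/

namespace Pool.Agent.H579.Q

open Finset
open Pool.Agent.H442R2.KF (piN piAP Er bv)
open Pool.Agent.Y614.GJ.Core (ev_log)
open Pool.Agent.H579.L

/-- the number of the primes up to `Y` -/
lemma piN_le : ∃ Y₀ : ℕ, ∀ Y : ℕ, Y₀ ≤ Y → (piN Y : ℝ) ≤ 2 * Y / Real.log Y := by
  have h4 : Real.log 4 < 1.5 := by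
    have : Real.log 4 = 2 * Real.log 2 := by
      rw [show (4 : ℝ) = 2 ^ 2 by norm_num, Real.log_pow]
      norm_num
    have := Real.log_two_lt_d9
    linarith
  have h := Chebyshev.eventually_primeCounting_le (ε := 1 / 2) (by norm_num)
  obtain ⟨x₀, hx₀⟩ := Filter.eventually_atTop.1 h
  refine ⟨⌈x₀⌉₊ + 1, fun Y hY => ?_⟩
  have h1 : x₀ ≤ (Y : ℝ) := by
    have e1 := Nat.le_ceil x₀
    have e2 : (⌈x₀⌉₊ : ℝ) ≤ Y := by exact_mod_cast (Nat.le_succ _).trans hY
    linarith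
  have h2 := hx₀ Y h1
  rw [Nat.floor_natCast] at h2
  have h3 : piN Y = Nat.primeCounting Y := by
    unfold piN
    rw [Nat.primeCounting, Nat.primeCounting', Nat.count_eq_card_filter_range]
    congr 1
    ext p
    rw [mem_filter, mem_filter, mem_Icc, mem_range]
    constructor
    · rintro ⟨⟨a, b⟩, c⟩
      exact ⟨by omega, c⟩
    · rintro ⟨a, c⟩
      exact ⟨⟨c.one_lt.le, by omega⟩, c⟩
  rw [h3]
  refine h2.trans ?_
  have hY1 : (1 : ℝ) ≤ Y := by
    have : 1 ≤ Y := by omega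
    exact_mod_cast this
  have hlog : 0 ≤ Real.log Y := Real.log_nonneg hY1
  have : Real.log 4 + 1 / 2 ≤ 2 := by norm_num at h4 ⊢; linarith
  gcongr

open Classical in
/-- the residue class in which `q m + h` is divisible by `d` -/
noncomputable def rc (q h d : ℕ) : ℕ :=
  if H : ∃ r : ℕ, r.Coprime d ∧ ∀ m : ℕ, d ∣ q * m + h ↔ m ≡ r [MOD d] then H.choose else 1

lemma rc_coprime (q h d : ℕ) : (rc q h d).Coprime d := by
  unfold rc
  split_ifs with H
  · exact H.choose_spec.1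
  · exact Nat.coprime_one_left d

lemma rc_spec {q h d : ℕ} (hd : 1 ≤ d) (hq : Nat.Coprime q d) (hh : Nat.Coprime h d) (m : ℕ) :
    d ∣ q * m + h ↔ m ≡ rc q h d [MOD d] := by
  have H : ∃ r : ℕ, r.Coprime d ∧ ∀ m : ℕ, d ∣ q * m + h ↔ m ≡ r [MOD d] := by
    have hne : NeZero d := ⟨by omega⟩
    obtain ⟨u, hu⟩ : ∃ u : (ZMod d)ˣ, (u : ZMod d) = (q : ZMod d) := by
      have := (ZMod.isUnit_iff_coprime q d).2 hq
      exact ⟨this.unit, this.unit_spec⟩
    obtain ⟨v, hv⟩ : ∃ u : (ZMod d)ˣ, (u : ZMod d) = (h : ZMod d) := by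
      have := (ZMod.isUnit_iff_coprime h d).2 hh
      exact ⟨this.unit, this.unit_spec⟩
    obtain ⟨r, hr⟩ : ∃ r : ℕ, (r : ZMod d) = ((-v * u⁻¹ : (ZMod d)ˣ) : ZMod d) :=
      ⟨(((-v * u⁻¹ : (ZMod d)ˣ) : ZMod d)).val, ZMod.natCast_zmod_val _⟩
    refine ⟨r, (ZMod.isUnit_iff_coprime r d).1 (by rw [hr]; exact Units.isUnit _), fun m => ?_⟩
    have hr' : (r : ZMod d) = -(h : ZMod d) * ((u⁻¹ : (ZMod d)ˣ) : ZMod d) := by
      rw [hr, ← hv]
      push_cast
      ring
    rw [← ZMod.natCast_eq_zero_iff, ← ZMod.natCast_eq_natCast_iff, hr', Nat.cast_add, Nat.cast_mul, ← hu]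
    constructor
    · intro h2
      have h3 : (u : ZMod d) * (m : ZMod d) = -(h : ZMod d) := by
        rw [← sub_eq_zero, sub_neg_eq_add]
        exact h2
      rw [← h3, mul_comm ((u : ZMod d) * m), ← mul_assoc, Units.inv_mul, one_mul]
    · intro h2
      rw [h2, mul_comm (-(h : ZMod d)), ← mul_assoc, Units.mul_inv, one_mul]
      ring
  unfold rc
  rw [dif_pos H]
  exact H.choose_spec.2 m

/-- the number of the primes `m ≤ Y` with `d ∣ q m + h` -/
lemma cnt_pr {q h d : ℕ} (Y : ℕ) (hd : 1 ≤ d) (hq : Nat.Coprime q d) (hh : Nat.Coprime h d) :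
    ((((Icc 1 Y).filter Nat.Prime).filter (fun m => d ∣ q * m + h)).card : ℝ) =
      (piN Y : ℝ) / (Nat.totient d : ℝ) + Er Y d (rc q h d) := by
  have h1 : ((Icc 1 Y).filter Nat.Prime).filter (fun m => d ∣ q * m + h) =
      (Icc 1 Y).filter (fun p : ℕ => p.Prime ∧ p ≡ rc q h d [MOD d]) := by
    ext m
    rw [mem_filter, mem_filter, mem_filter, rc_spec hd hq hh]
    tauto
  rw [h1]
  unfold Er piAP
  ring

/-- sums over the ordered pairs of different primes -/
lemma pair_sum (S : Finset ℕ) (hS : ∀ p ∈ S, p.Prime) (f : ℕ → ℝ) (hf : ∀ d, 0 ≤ f d) {D : ℕ}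
    (hD : ∀ p ∈ S, ∀ p' ∈ S, p * p' ≤ D) :
    ∑ p ∈ S, ∑ p' ∈ S, (if p = p' then 0 else f (p * p')) ≤ 2 * ∑ d ∈ Icc 1 D, f d := by
  classical
  have h1 : ∑ p ∈ S, ∑ p' ∈ S, (if p = p' then 0 else f (p * p')) =
      ∑ x ∈ (S ×ˢ S).filter (fun x : ℕ × ℕ => x.1 ≠ x.2), f (x.1 * x.2) := by
    rw [sum_filter, sum_product]
    refine sum_congr rfl fun p _ => sum_congr rfl fun p' _ => ?_
    by_cases h : p = p'
    · rw [if_pos h, if_neg (by simpa using h)]
    · rw [if_neg h, if_pos (by simpa using h)]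
  rw [h1, ← sum_fiberwise_of_maps_to (s := (S ×ˢ S).filter (fun x : ℕ × ℕ => x.1 ≠ x.2))
    (t := Icc 1 D) (g := fun x : ℕ × ℕ => x.1 * x.2), mul_sum]
  · refine sum_le_sum fun d _ => ?_
    have h2 : ∀ x ∈ ((S ×ˢ S).filter (fun x : ℕ × ℕ => x.1 ≠ x.2)).filter (fun x => x.1 * x.2 = d),
        f (x.1 * x.2) = f d := fun x hx => by rw [(mem_filter.1 hx).2]
    rw [sum_congr rfl h2, sum_const, nsmul_eq_mul]
    refine mul_le_mul_of_nonneg_right ?_ (hf d)
    rcases (((S ×ˢ S).filter (fun x : ℕ × ℕ => x.1 ≠ x.2)).filter (fun x => x.1 * x.2 = d)).eq_empty_or_nonempty with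
      he | ⟨y, hy⟩
    · rw [he, card_empty]
      norm_num
    · rw [mem_filter, mem_filter, mem_product] at hy
      have hsub : (((S ×ˢ S).filter (fun x : ℕ × ℕ => x.1 ≠ x.2)).filter (fun x => x.1 * x.2 = d)) ⊆
          {y, (y.2, y.1)} := by
        intro x hx
        rw [mem_filter, mem_filter, mem_product] at hx
        have hx1 := hS _ hx.1.1.1
        have hy1 := hS _ hy.1.1.1
        have hy2 := hS _ hy.1.1.2
        have h3 : x.1 ∣ y.1 * y.2 := by
          rw [hy.2, ← hx.2]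
          exact dvd_mul_right _ _
        rw [mem_insert, mem_singleton]
        rcases hx1.dvd_mul.1 h3 with h4 | h4
        · left
          have h5 : x.1 = y.1 := (Nat.prime_dvd_prime_iff_eq hx1 hy1).1 h4
          have h6 : x.2 = y.2 := by
            have : x.1 * x.2 = x.1 * y.2 := by rw [hx.2, h5, hy.2]
            exact Nat.eq_of_mul_eq_mul_left hx1.pos this
          exact Prod.ext h5 h6
        · right
          have h5 : x.1 = y.2 := (Nat.prime_dvd_prime_iff_eq hx1 hy2).1 h4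
          have h6 : x.2 = y.1 := by
            have : x.1 * x.2 = x.1 * y.1 := by rw [hx.2, h5, mul_comm, hy.2]
            exact Nat.eq_of_mul_eq_mul_left hx1.pos this
          exact Prod.ext h5 h6
      exact_mod_cast (card_le_card hsub).trans card_le_two
  · intro x hx
    rw [mem_filter, mem_product] at hx
    rw [mem_Icc]
    exact ⟨Nat.mul_pos (hS _ hx.1.1).pos (hS _ hx.1.2).pos, hD _ hx.1.1 _ hx.1.2⟩

/-- the second moment, for the primes which divide neither `q` nor `h` -/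
lemma tk2 {q h Y D : ℕ} (S : Finset ℕ) (hp : ∀ p ∈ S, p.Prime) (hq : ∀ p ∈ S, ¬ p ∣ q) (hh : ∀ p ∈ S, ¬ p ∣ h)
    (hD : ∀ p ∈ S, ∀ p' ∈ S, p * p' ≤ D) {e : ℝ} (he : ∀ p ∈ S, 2 / (p : ℝ) ≤ e) :
    ∑ m ∈ (Icc 1 Y).filter Nat.Prime,
        ((((S.filter (fun p => p ∣ q * m + h)).card : ℕ) : ℝ) - ∑ p ∈ S, (1 : ℝ) / p) ^ 2 ≤
      (piN Y : ℝ) * ((∑ p ∈ S, (1 : ℝ) / p) * (1 + e) ^ 2 + e * (1 + e) * (∑ p ∈ S, (1 : ℝ) / p) ^ 2) +
        (3 + 2 * ∑ p ∈ S, (1 : ℝ) / p) * ∑ d ∈ Icc 1 D, |Er Y d (rc q h d)| := by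
  classical
  obtain ⟨P, hP⟩ : ∃ P, P = (Icc 1 Y).filter Nat.Prime := ⟨_, rfl⟩
  rw [← hP]
  obtain ⟨W, hW⟩ : ∃ W, W = ∑ p ∈ S, (1 : ℝ) / p := ⟨_, rfl⟩
  obtain ⟨E, hE⟩ : ∃ E : ℕ → ℝ, E = fun d => Er Y d (rc q h d) := ⟨_, rfl⟩
  obtain ⟨π, hπ⟩ : ∃ π : ℝ, π = (piN Y : ℝ) := ⟨_, rfl⟩
  have hπ0 : 0 ≤ π := by rw [hπ]; exact Nat.cast_nonneg _
  have hπc : (P.card : ℝ) = π := by
    rw [hP, hπ]
    rfl
  have hW0 : 0 ≤ W := by rw [hW]; exact sum_nonneg fun _ _ => by positivity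
  have hpD : ∀ p ∈ S, p ∈ Icc 1 D := fun p hpS => by
    rw [mem_Icc]
    exact ⟨(hp p hpS).one_lt.le, (Nat.le_mul_of_pos_left p (hp p hpS).pos).trans (hD p hpS p hpS)⟩
  have hcq : ∀ p ∈ S, Nat.Coprime q p := fun p h' => ((hp p h').coprime_iff_not_dvd.2 (hq p h')).symm
  have hch : ∀ p ∈ S, Nat.Coprime h p := fun p h' => ((hp p h').coprime_iff_not_dvd.2 (hh p h')).symm
  obtain ⟨u, hu⟩ : ∃ u : ℕ → ℕ → ℝ, u = fun p m => (if p ∣ q * m + h then (1 : ℝ) else 0) - 1 / p := ⟨_, rfl⟩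
  have h1 : ∀ m, ((((S.filter (fun p => p ∣ q * m + h)).card : ℕ) : ℝ) - W) ^ 2 =
      ∑ p ∈ S, ∑ p' ∈ S, u p m * u p' m := by
    intro m
    rw [← sum_mul_sum, ← sq, hW]
    congr 1
    rw [hu]
    simp only
    rw [sum_sub_distrib, ← sum_filter, sum_const, nsmul_eq_mul, mul_one]
  rw [← hW, sum_congr rfl fun m _ => h1 m, sum_comm]
  have s1 : ∀ r : ℕ, ∑ m ∈ P, (if r ∣ q * m + h then (1 : ℝ) else 0) =
      ((P.filter (fun m => r ∣ q * m + h)).card : ℝ) := by
    intro r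
    rw [← sum_filter, sum_const, nsmul_eq_mul, mul_one]
  have key : ∀ p ∈ S, ∀ p' ∈ S, ∑ m ∈ P, u p m * u p' m ≤
      (if p = p' then π * (1 / p * (1 + e) ^ 2) + |E p| else |E (p * p')|) +
        (π * (e * (1 + e)) * (1 / p * (1 / p')) + |E p| * (1 / p') + |E p'| * (1 / p)) := by
    intro p hpS p' hp'S
    have hp2 : (2 : ℝ) ≤ p := by exact_mod_cast (hp p hpS).two_le
    have hp2' : (2 : ℝ) ≤ p' := by exact_mod_cast (hp p' hp'S).two_le
    have c1 := cnt_pr (q := q) (h := h) Y (hp p hpS).one_lt.le (hcq p hpS) (hch p hpS)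
    have c2 := cnt_pr (q := q) (h := h) Y (hp p' hp'S).one_lt.le (hcq p' hp'S) (hch p' hp'S)
    rw [← hP, ← hπ, Nat.totient_prime (hp p hpS), Nat.cast_sub (hp p hpS).one_lt.le, Nat.cast_one] at c1
    rw [← hP, ← hπ, Nat.totient_prime (hp p' hp'S), Nat.cast_sub (hp p' hp'S).one_lt.le, Nat.cast_one] at c2
    have e1 : ∑ m ∈ P, u p m * u p' m =
        ∑ m ∈ P, ((if p ∣ q * m + h then (1 : ℝ) else 0) * (if p' ∣ q * m + h then (1 : ℝ) else 0)) -
        1 / p' * ((P.filter (fun m => p ∣ q * m + h)).card : ℝ) -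
        1 / p * ((P.filter (fun m => p' ∣ q * m + h)).card : ℝ) + π * (1 / p * (1 / p')) := by
      rw [hu]
      simp only
      have e2 : ∀ m ∈ P, ((if p ∣ q * m + h then (1 : ℝ) else 0) - 1 / p) *
          ((if p' ∣ q * m + h then (1 : ℝ) else 0) - 1 / p') =
          (if p ∣ q * m + h then (1 : ℝ) else 0) * (if p' ∣ q * m + h then (1 : ℝ) else 0) -
          1 / p' * (if p ∣ q * m + h then (1 : ℝ) else 0) - 1 / p * (if p' ∣ q * m + h then (1 : ℝ) else 0) +
          1 / p * (1 / p') := by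
        intro m _
        ring
      rw [sum_congr rfl e2, sum_add_distrib, sum_sub_distrib, sum_sub_distrib, ← mul_sum, ← mul_sum, s1, s1,
        sum_const, nsmul_eq_mul, hπc]
    have hE1 : E p = Er Y p (rc q h p) := by rw [hE]
    have hE2 : E p' = Er Y p' (rc q h p') := by rw [hE]
    rw [← hE1] at c1
    rw [← hE2] at c2
    rw [e1, c1, c2]
    -- `1 / (p - 1) = 1 / p + t`, `t ≤ e / p`
    obtain ⟨x, hx⟩ : ∃ x : ℝ, x = 1 / (p : ℝ) := ⟨_, rfl⟩
    obtain ⟨x', hx'⟩ : ∃ x : ℝ, x = 1 / (p' : ℝ) := ⟨_, rfl⟩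
    obtain ⟨t, ht⟩ : ∃ t : ℝ, t = 1 / ((p : ℝ) - 1) - 1 / p := ⟨_, rfl⟩
    obtain ⟨t', ht'⟩ : ∃ t : ℝ, t = 1 / ((p' : ℝ) - 1) - 1 / p' := ⟨_, rfl⟩
    have hte : ∀ r : ℝ, 2 ≤ r → 2 / r ≤ e → 0 ≤ 1 / (r - 1) - 1 / r ∧ 1 / (r - 1) - 1 / r ≤ e * (1 / r) := by
      intro r hr hre
      have e3 : 1 / (r - 1) - 1 / r = 1 / (r * (r - 1)) := by
        have : r - 1 ≠ 0 := by linarith
        have : r ≠ 0 := by linarith
        field_simp
        ring
      have hr1 : 0 < r - 1 := by linarith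
      rw [e3]
      refine ⟨by positivity, ?_⟩
      calc 1 / (r * (r - 1)) ≤ 2 / r * (1 / r) := by
            rw [div_mul_div_comm, div_le_div_iff₀ (by positivity) (by positivity)]
            nlinarith
        _ ≤ e * (1 / r) := by gcongr
    have ht1 := hte p hp2 (he p hpS)
    have ht1' := hte p' hp2' (he p' hp'S)
    have he0 : 0 ≤ e := le_trans (by positivity) (he p hpS)
    rw [← ht, ← hx] at ht1
    rw [← ht', ← hx'] at ht1'
    have d1 : π / ((p : ℝ) - 1) = π * (x + t) := by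
      rw [hx, ht]
      ring
    have d2 : π / ((p' : ℝ) - 1) = π * (x' + t') := by
      rw [hx', ht']
      ring
    rw [d1, d2, ← hx, ← hx']
    have hx0 : 0 ≤ x := by rw [hx]; positivity
    have hx0' : 0 ≤ x' := by rw [hx']; positivity
    have b1 := le_abs_self (E p)
    have b1' := neg_abs_le (E p)
    have b2 := neg_abs_le (E p')
    by_cases hpp : p = p'
    · subst hpp
      rw [if_pos rfl]
      have e3 : ∑ m ∈ P, ((if p ∣ q * m + h then (1 : ℝ) else 0) * (if p ∣ q * m + h then (1 : ℝ) else 0)) =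
          π * (x + t) + E p := by
        rw [← d1, ← c1, ← s1 p]
        refine sum_congr rfl fun m _ => ?_
        split_ifs <;> norm_num
      rw [e3]
      have exx : x' = x := by rw [hx, hx']
      have ett : t' = t := by rw [ht, ht']
      rw [exx, ett]
      have g1 : π * (x + t) ≤ π * (x * (1 + e)) := by
        apply mul_le_mul_of_nonneg_left _ hπ0
        linarith [ht1.2]
      have g2 : π * (x * (1 + e)) ≤ π * (x * (1 + e) ^ 2) := by
        apply mul_le_mul_of_nonneg_left _ hπ0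
        apply mul_le_mul_of_nonneg_left _ hx0
        nlinarith
      have g3 : 0 ≤ π * (e * (1 + e)) * (x * x) := by positivity
      have g4 : 0 ≤ π * x * t := mul_nonneg (mul_nonneg hπ0 hx0) ht1.1
      have g5 : 0 ≤ x * (|E p| + E p) := mul_nonneg hx0 (by linarith)
      have g6 : 0 ≤ π * (x * x) := by positivity
      nlinarith
    · rw [if_neg hpp]
      have hcop2 : Nat.Coprime p p' := (Nat.coprime_primes (hp p hpS) (hp p' hp'S)).2 hpp
      have c3 := cnt_pr (q := q) (h := h) Y (d := p * p') (Nat.mul_pos (hp p hpS).pos (hp p' hp'S).pos)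
        (Nat.Coprime.mul_right (hcq p hpS) (hcq p' hp'S)) (Nat.Coprime.mul_right (hch p hpS) (hch p' hp'S))
      rw [← hP, ← hπ, Nat.totient_mul hcop2, Nat.totient_prime (hp p hpS), Nat.totient_prime (hp p' hp'S),
        Nat.cast_mul, Nat.cast_sub (hp p hpS).one_lt.le, Nat.cast_sub (hp p' hp'S).one_lt.le, Nat.cast_one] at c3
      have hE3 : E (p * p') = Er Y (p * p') (rc q h (p * p')) := by rw [hE]
      rw [← hE3] at c3
      have e3 : ∑ m ∈ P, ((if p ∣ q * m + h then (1 : ℝ) else 0) * (if p' ∣ q * m + h then (1 : ℝ) else 0)) =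
          ((P.filter (fun m => p * p' ∣ q * m + h)).card : ℝ) := by
        rw [← s1 (p * p')]
        refine sum_congr rfl fun m _ => ?_
        by_cases a1 : p ∣ q * m + h
        · by_cases a2 : p' ∣ q * m + h
          · rw [if_pos a1, if_pos a2, if_pos (hcop2.mul_dvd_of_dvd_of_dvd a1 a2), mul_one]
          · rw [if_pos a1, if_neg a2, if_neg (fun h => a2 (dvd_trans (dvd_mul_left _ _) h)), mul_zero]
        · rw [if_neg a1, if_neg (fun h => a1 (dvd_trans (dvd_mul_right _ _) h)), zero_mul]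
      rw [e3, c3]
      have d3 : π / (((p : ℝ) - 1) * ((p' : ℝ) - 1)) = π * ((x + t) * (x' + t')) := by
        rw [hx, ht, hx', ht']
        have : (p : ℝ) - 1 ≠ 0 := by linarith
        have : (p' : ℝ) - 1 ≠ 0 := by linarith
        field_simp
        ring
      rw [d3]
      have g1 : π * (t * t') ≤ π * (e * (1 + e)) * (x * x') := by
        calc π * (t * t') ≤ π * ((e * x) * (e * x')) := by
              apply mul_le_mul_of_nonneg_left _ hπ0
              exact mul_le_mul ht1.2 ht1'.2 ht1'.1 (by positivity)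
          _ ≤ π * (e * (1 + e)) * (x * x') := by
              have : π * (e * (1 + e)) * (x * x') = π * ((e * x) * (e * x')) + π * (e * (x * x')) := by ring
              rw [this]
              have : 0 ≤ π * (e * (x * x')) := by positivity
              linarith
      have g2 : -(x' * E p) ≤ |E p| * x' := by
        have := mul_nonneg hx0' (show 0 ≤ |E p| + E p by linarith)
        linarith
      have g3 : -(x * E p') ≤ |E p'| * x := by
        have := mul_nonneg hx0 (show 0 ≤ |E p'| + E p' by linarith)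
        linarith
      have g4 := le_abs_self (E (p * p'))
      have g5 : π * ((x + t) * (x' + t')) + E (p * p') - x' * (π * (x + t) + E p) - x * (π * (x' + t') + E p') +
          π * (x * x') = π * (t * t') + E (p * p') - x' * E p - x * E p' := by ring
      rw [g5]
      linarith
  have hEs : ∑ p ∈ S, |E p| ≤ ∑ d ∈ Icc 1 D, |E d| :=
    sum_le_sum_of_subset_of_nonneg (fun p hp' => hpD p hp') fun _ _ _ => abs_nonneg _
  have hEp := pair_sum S hp (fun d => |E d|) (fun _ => abs_nonneg _) hD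
  have hT0 : 0 ≤ ∑ d ∈ Icc 1 D, |E d| := sum_nonneg fun _ _ => abs_nonneg _
  calc ∑ p ∈ S, ∑ m ∈ P, ∑ p' ∈ S, u p m * u p' m =
      ∑ p ∈ S, ∑ p' ∈ S, ∑ m ∈ P, u p m * u p' m := sum_congr rfl fun p _ => sum_comm
    _ ≤ ∑ p ∈ S, ∑ p' ∈ S, ((if p = p' then π * (1 / p * (1 + e) ^ 2) + |E p| else |E (p * p')|) +
        (π * (e * (1 + e)) * (1 / p * (1 / p')) + |E p| * (1 / p') + |E p'| * (1 / p))) :=
        sum_le_sum fun p hp => sum_le_sum fun p' hp' => key p hp p' hp'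
    _ = ∑ p ∈ S, ∑ p' ∈ S, ((if p = p' then π * (1 / p * (1 + e) ^ 2) + |E p| else 0) +
        (if p = p' then 0 else |E (p * p')|) +
        (π * (e * (1 + e)) * (1 / p * (1 / p')) + |E p| * (1 / p') + |E p'| * (1 / p))) := by
        refine sum_congr rfl fun p _ => sum_congr rfl fun p' _ => ?_
        split_ifs <;> ring
    _ = (π * ((∑ p ∈ S, (1 : ℝ) / p) * (1 + e) ^ 2) + ∑ p ∈ S, |E p|) +
        ∑ p ∈ S, ∑ p' ∈ S, (if p = p' then 0 else |E (p * p')|) +
        (π * (e * (1 + e)) * ((∑ p ∈ S, (1 : ℝ) / p) * ∑ p ∈ S, (1 : ℝ) / p) +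
          (∑ p ∈ S, |E p|) * (∑ p ∈ S, (1 : ℝ) / p) + (∑ p ∈ S, |E p|) * (∑ p ∈ S, (1 : ℝ) / p)) := by
        simp only [sum_add_distrib]
        congr 1
        · congr 1
          rw [sum_congr rfl fun p hp => sum_ite_eq S p (fun _ => π * (1 / (p : ℝ) * (1 + e) ^ 2) + |E p|)]
          rw [sum_congr rfl fun p hp => if_pos hp, sum_add_distrib, ← mul_sum, ← sum_mul]
        · congr 1
          · congr 1
            · rw [sum_mul_sum, mul_sum]
              refine sum_congr rfl fun p _ => ?_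
              rw [mul_sum]
            · rw [sum_mul_sum]
          · rw [sum_comm, sum_mul_sum]
    _ ≤ _ := by
        rw [← hW]
        have hEs' : (∑ p ∈ S, |E p|) * W ≤ (∑ d ∈ Icc 1 D, |E d|) * W := by gcongr
        have e5 : ∑ d ∈ Icc 1 D, |Er Y d (rc q h d)| = ∑ d ∈ Icc 1 D, |E d| := by rw [hE]
        rw [e5, ← hπ]
        nlinarith

end Pool.Agent.H579.Q
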