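import Pool.Agent.H579.Q.Pw

set_option autoImplicit false

/-! The inequality of Turán and Kubilius for linear forms at the primes, in the mean. -/

namespace Pool.Agent.H579.Q

open Finset
open Pool.Agent.H442R2.KF (piN piAP Er bv)
open Pool.Agent.Y614.GJ.Core (ev_log)
open Pool.Agent.H579.L

lemma ev_rpow {s : ℝ} (hs : 0 < s) (b : ℝ) : ∃ N₀ : ℕ, ∀ N : ℕ, N₀ ≤ N → b ≤ (N : ℝ) ^ s := by
  have h1 : Filter.Tendsto (fun N : ℕ => (N : ℝ) ^ s) Filter.atTop Filter.atTop :=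
    (tendsto_rpow_atTop hs).comp tendsto_natCast_atTop_atTop
  obtain ⟨N₀, h⟩ := Filter.eventually_atTop.1 (h1.eventually_ge_atTop b)
  exact ⟨N₀, h⟩

theorem tk_pr {κ : ℝ} (hκ : 0 < κ) : ∃ Y₀ : ℕ, ∀ Y : ℕ, Y₀ ≤ Y → ∀ S : Finset ℕ,
    (∀ p ∈ S, p.Prime ∧ (Y : ℝ) ^ κ < p ∧ (p : ℝ) ≤ (Y : ℝ) ^ (1 / 5 : ℝ)) → 1 ≤ ∑ p ∈ S, (1 : ℝ) / p →
    ∀ q h : ℕ, 1 ≤ h → (∀ p ∈ S, ¬ p ∣ q) → (h.divisors.card : ℝ) ≤ (Y : ℝ) ^ (κ / 2) →
    ∑ m ∈ (Icc 1 Y).filter Nat.Prime, Real.log m *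
        |(((S.filter (fun p => p ∣ q * m + h)).card : ℕ) : ℝ) - ∑ p ∈ S, (1 : ℝ) / p| ≤
      6 * Y * Real.sqrt (∑ p ∈ S, (1 : ℝ) / p) := by
  classical
  obtain ⟨N₁, hpi⟩ := piN_le
  obtain ⟨C, hC0, hbv⟩ := bv (2 / 5) (by norm_num) 2
  obtain ⟨N₂, hN₂⟩ := Filter.eventually_atTop.1 (ev_log 1 (s := κ / 2) (by positivity) (10 + 5 * C))
  obtain ⟨N₃, hN₃⟩ := Filter.eventually_atTop.1 (ev_log 1 (s := 4 / 5) (by norm_num) 10)
  obtain ⟨N₄, hN₄⟩ := ev_rpow (s := κ / 2) (by positivity) 40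
  refine ⟨max (max N₁ N₂) (max (max N₃ N₄) 3), fun Y hY S hS hW q h hh hq hdiv => ?_⟩
  have hYN₁ : N₁ ≤ Y := le_trans (le_trans (le_max_left _ _) (le_max_left _ _)) hY
  have hYN₂ : N₂ ≤ Y := le_trans (le_trans (le_max_right _ _) (le_max_left _ _)) hY
  have hYN₃ : N₃ ≤ Y := le_trans (le_trans (le_trans (le_max_left _ _) (le_max_left _ _)) (le_max_right _ _)) hY
  have hYN₄ : N₄ ≤ Y := le_trans (le_trans (le_trans (le_max_right _ _) (le_max_left _ _)) (le_max_right _ _)) hY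
  have hY3 : 3 ≤ Y := le_trans (le_trans (le_max_right _ _) (le_max_right _ _)) hY
  have hpi := hpi Y hYN₁
  have hbv := hbv Y hY3
  obtain ⟨hLb, hLκ⟩ := hN₂ Y hYN₂
  obtain ⟨-, hL45⟩ := hN₃ Y hYN₃
  have hκ40 := hN₄ Y hYN₄
  have hYr : (3 : ℝ) ≤ Y := by exact_mod_cast hY3
  have hY0 : (0 : ℝ) < Y := by linarith
  obtain ⟨L, hL⟩ : ∃ L, L = Real.log (Y : ℝ) := ⟨_, rfl⟩
  rw [← hL] at hpi hbv hLb hLκ hL45
  rw [pow_one] at hLκ hL45
  have hL10 : 10 ≤ L := by linarith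
  have hLC : 5 * C ≤ L := by linarith
  have hL0 : 0 < L := by linarith
  obtain ⟨π, hπ⟩ : ∃ π : ℝ, π = (piN Y : ℝ) := ⟨_, rfl⟩
  have hπ0 : 0 ≤ π := by rw [hπ]; exact Nat.cast_nonneg _
  rw [← hπ] at hpi
  obtain ⟨P, hP⟩ : ∃ P, P = (Icc 1 Y).filter Nat.Prime := ⟨_, rfl⟩
  have hπc : (P.card : ℝ) = π := by
    rw [hP, hπ]
    rfl
  rw [← hP]
  obtain ⟨W, hWd⟩ : ∃ W, W = ∑ p ∈ S, (1 : ℝ) / p := ⟨_, rfl⟩
  rw [← hWd] at hW ⊢
  obtain ⟨S', hS'⟩ : ∃ S', S' = S.filter (fun p => ¬ p ∣ h) := ⟨_, rfl⟩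
  obtain ⟨W', hW'd⟩ : ∃ W, W = ∑ p ∈ S', (1 : ℝ) / p := ⟨_, rfl⟩
  have hsub : S' ⊆ S := by rw [hS']; exact filter_subset _ _
  have hW'0 : 0 ≤ W' := by rw [hW'd]; exact sum_nonneg fun _ _ => by positivity
  have hW'W : W' ≤ W := by
    rw [hW'd, hWd]
    exact sum_le_sum_of_subset_of_nonneg hsub fun _ _ _ => by positivity
  have hYκ : (0 : ℝ) < (Y : ℝ) ^ κ := by positivity
  have hYκ2 : (Y : ℝ) ^ κ = (Y : ℝ) ^ (κ / 2) * (Y : ℝ) ^ (κ / 2) := by
    rw [← Real.rpow_add hY0]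
    congr 1
    ring
  have hY15 : (Y : ℝ) ^ (1 / 5 : ℝ) ≤ Y := by
    calc (Y : ℝ) ^ (1 / 5 : ℝ) ≤ (Y : ℝ) ^ (1 : ℝ) := Real.rpow_le_rpow_of_exponent_le (by linarith) (by norm_num)
      _ = Y := Real.rpow_one _
  -- upper bound for `W`
  have hWL : W ≤ 2 * L := by
    have h1 : W ≤ ∑ d ∈ Icc 1 Y, ((d : ℝ))⁻¹ := by
      rw [hWd]
      simp only [one_div]
      refine sum_le_sum_of_subset_of_nonneg ?_ fun _ _ _ => by positivity
      intro p hp
      rw [mem_Icc]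
      refine ⟨(hS p hp).1.one_lt.le, ?_⟩
      exact_mod_cast (hS p hp).2.2.trans hY15
    have h2 := harm Y
    rw [← hL] at h2
    linarith
  -- the second moment
  have hD : ∀ p ∈ S', ∀ p' ∈ S', p * p' ≤ ⌊(Y : ℝ) ^ (2 / 5 : ℝ)⌋₊ := by
    intro p hp p' hp'
    apply Nat.le_floor
    push_cast
    calc (p : ℝ) * p' ≤ (Y : ℝ) ^ (1 / 5 : ℝ) * (Y : ℝ) ^ (1 / 5 : ℝ) :=
          mul_le_mul (hS p (hsub hp)).2.2 (hS p' (hsub hp')).2.2 (Nat.cast_nonneg _) (by positivity)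
      _ = (Y : ℝ) ^ (2 / 5 : ℝ) := by
          rw [← Real.rpow_add hY0]
          norm_num
  obtain ⟨e, he⟩ : ∃ e : ℝ, e = 2 / (Y : ℝ) ^ κ := ⟨_, rfl⟩
  have he0 : 0 < e := by rw [he]; positivity
  have hebd : e * (20 * L) ≤ 1 := by
    rw [he, div_mul_eq_mul_div, div_le_one hYκ, hYκ2]
    calc 2 * (20 * L) = 40 * L := by ring
      _ ≤ (Y : ℝ) ^ (κ / 2) * (Y : ℝ) ^ (κ / 2) := by gcongr
  have he1 : e ≤ 1 / 200 := by nlinarith
  have htk := tk2 (q := q) (h := h) (Y := Y) S' (fun p hp => (hS p (hsub hp)).1) (fun p hp => hq p (hsub hp))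
    (fun p hp => by
      rw [hS'] at hp
      exact (mem_filter.1 hp).2) hD (e := e) (fun p hp => by
      rw [he]
      exact div_le_div_of_nonneg_left (by norm_num) hYκ (hS p (hsub hp)).2.1.le)
  have hbv' := hbv (rc q h) (fun d _ => rc_coprime q h d)
  rw [← hP, ← hW'd, ← hπ] at htk
  obtain ⟨T, hT⟩ : ∃ T, T = ∑ d ∈ Icc 1 ⌊(Y : ℝ) ^ (2 / 5 : ℝ)⌋₊, |Er Y d (rc q h d)| := ⟨_, rfl⟩
  rw [← hT] at htk hbv'
  have hT0 : 0 ≤ T := by rw [hT]; exact sum_nonneg fun _ _ => abs_nonneg _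
  have hV : ∑ m ∈ P, ((((S'.filter (fun p => p ∣ q * m + h)).card : ℕ) : ℝ) - W') ^ 2 ≤ 5 * W * Y / L := by
    refine htk.trans ?_
    have g1 : W' * (1 + e) ^ 2 + e * (1 + e) * W' ^ 2 ≤ 2 * W := by
      have a1 : (1 + e) ^ 2 ≤ 1.1 := by nlinarith
      have a2 : W' * (1 + e) ^ 2 ≤ W * 1.1 := mul_le_mul hW'W a1 (by positivity) (by linarith)
      have a3 : e * (1 + e) * W' ^ 2 ≤ W * 0.9 := by
        have b1 : W' ^ 2 ≤ 2 * L * W := by
          rw [sq]
          exact mul_le_mul (hW'W.trans hWL) hW'W hW'0 (by positivity)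
        have b2 : e * (1 + e) ≤ e * 1.1 := mul_le_mul_of_nonneg_left (by linarith) he0.le
        calc e * (1 + e) * W' ^ 2 ≤ e * 1.1 * (2 * L * W) := mul_le_mul b2 b1 (by positivity) (by positivity)
          _ = (e * (20 * L)) * (W * 0.11) := by ring
          _ ≤ 1 * (W * 0.11) := by
              apply mul_le_mul_of_nonneg_right hebd
              positivity
          _ ≤ _ := by linarith
      linarith
    have g2 : π * (W' * (1 + e) ^ 2 + e * (1 + e) * W' ^ 2) ≤ 2 * Y / L * (2 * W) :=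
      mul_le_mul hpi g1 (by positivity) (by positivity)
    have g3 : (3 + 2 * W') * T ≤ 5 * W * (C * (Y / L ^ 2)) := by
      apply mul_le_mul _ hbv' hT0 (by positivity)
      linarith
    have g4 : 5 * W * (C * (Y / L ^ 2)) ≤ W * Y / L := by
      have : 5 * W * (C * (Y / L ^ 2)) = W * Y / L * (5 * C / L) := by
        field_simp
      rw [this]
      have h5 : 5 * C / L ≤ 1 := by rw [div_le_one hL0]; exact hLC
      have h6 : 0 ≤ W * Y / L := by positivity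
      nlinarith
    have g5 : 2 * Y / L * (2 * W) = 4 * (W * Y / L) := by ring
    have g6 : 5 * W * Y / L = 5 * (W * Y / L) := by ring
    rw [g5] at g2
    rw [g6]
    linarith
  have hmain : ∑ m ∈ P, |(((S'.filter (fun p => p ∣ q * m + h)).card : ℕ) : ℝ) - W'| ≤ 4 * Y * Real.sqrt W / L := by
    have h1 : (∑ m ∈ P, |(((S'.filter (fun p => p ∣ q * m + h)).card : ℕ) : ℝ) - W'|) ^ 2 ≤
        (4 * Y * Real.sqrt W / L) ^ 2 := by
      calc (∑ m ∈ P, |(((S'.filter (fun p => p ∣ q * m + h)).card : ℕ) : ℝ) - W'|) ^ 2 ≤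
          P.card * ∑ m ∈ P, |(((S'.filter (fun p => p ∣ q * m + h)).card : ℕ) : ℝ) - W'| ^ 2 :=
            sq_sum_le_card_mul_sum_sq
        _ = π * ∑ m ∈ P, ((((S'.filter (fun p => p ∣ q * m + h)).card : ℕ) : ℝ) - W') ^ 2 := by
            rw [hπc]
            simp only [sq_abs]
        _ ≤ (2 * Y / L) * (5 * W * Y / L) := by gcongr
        _ = 10 * (Y ^ 2 * W / L ^ 2) := by
            field_simp
            ring
        _ ≤ 16 * (Y ^ 2 * W / L ^ 2) := by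
            have : 0 ≤ (Y : ℝ) ^ 2 * W / L ^ 2 := by positivity
            linarith
        _ = (4 * Y * Real.sqrt W / L) ^ 2 := by
            rw [div_pow, mul_pow, mul_pow, Real.sq_sqrt (by linarith)]
            ring
    exact (pow_le_pow_iff_left₀ (sum_nonneg fun _ _ => abs_nonneg _) (by positivity) two_ne_zero).1 h1
  -- the primes which divide `h`
  have hWW' : |W - W'| ≤ 1 / (Y : ℝ) ^ (κ / 2) := by
    rw [abs_of_nonneg (by linarith)]
    have h1 : W - W' = ∑ p ∈ S.filter (fun p => p ∣ h), (1 : ℝ) / p := by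
      have := sum_filter_add_sum_filter_not S (fun p => p ∣ h) (fun p => (1 : ℝ) / p)
      rw [hWd, hW'd, hS', ← this]
      ring
    rw [h1]
    calc ∑ p ∈ S.filter (fun p => p ∣ h), (1 : ℝ) / p ≤ ∑ p ∈ S.filter (fun p => p ∣ h), 1 / (Y : ℝ) ^ κ := by
          refine sum_le_sum fun p hp => ?_
          rw [mem_filter] at hp
          exact one_div_le_one_div_of_le hYκ (hS p hp.1).2.1.le
      _ = ((S.filter (fun p => p ∣ h)).card : ℝ) * (1 / (Y : ℝ) ^ κ) := by rw [sum_const, nsmul_eq_mul]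
      _ ≤ (Y : ℝ) ^ (κ / 2) * (1 / (Y : ℝ) ^ κ) := by
          refine mul_le_mul_of_nonneg_right (le_trans ?_ hdiv) (by positivity)
          refine Nat.cast_le.2 (card_le_card ?_)
          intro p hp
          rw [mem_filter] at hp
          exact Nat.mem_divisors.2 ⟨hp.2, by omega⟩
      _ = 1 / (Y : ℝ) ^ (κ / 2) := by
          rw [hYκ2]
          field_simp
  have hcd : ∀ m ∈ P, |(((S.filter (fun p => p ∣ q * m + h)).card : ℕ) : ℝ) -
      (((S'.filter (fun p => p ∣ q * m + h)).card : ℕ) : ℝ)| ≤ if m ∈ S then 1 else 0 := by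
    intro m hm
    rw [hP, mem_filter] at hm
    have h1 : ((S.filter (fun p => p ∣ q * m + h)).card : ℝ) = ((S'.filter (fun p => p ∣ q * m + h)).card : ℝ) +
        (((S.filter (fun p => p ∣ q * m + h)).filter (fun p => p ∣ h)).card : ℝ) := by
      rw [hS', filter_filter, ← Nat.cast_add, filter_filter]
      congr 1
      have e1 : S.filter (fun p => ¬ p ∣ h ∧ p ∣ q * m + h) =
          (S.filter (fun p => p ∣ q * m + h)).filter (fun p => ¬ p ∣ h) := by
        rw [filter_filter]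
        refine filter_congr fun p _ => ?_
        tauto
      have e2 : S.filter (fun p => p ∣ q * m + h ∧ p ∣ h) =
          (S.filter (fun p => p ∣ q * m + h)).filter (fun p => p ∣ h) := by
        rw [filter_filter]
      have e3 := card_filter_add_card_filter_not (s := S.filter (fun p => p ∣ q * m + h)) (fun p => p ∣ h)
      rw [e1, e2]
      omega
    rw [h1, add_sub_cancel_left, Nat.abs_cast]
    have h2 : ∀ p ∈ (S.filter (fun p => p ∣ q * m + h)).filter (fun p => p ∣ h), p = m := by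
      intro p hp
      rw [mem_filter, mem_filter] at hp
      have h3 : p ∣ q * m := (Nat.dvd_add_left hp.2).1 hp.1.2
      have hpp := (hS p hp.1.1).1
      exact (Nat.prime_dvd_prime_iff_eq hpp hm.2).1 ((hpp.dvd_mul.1 h3).resolve_left (hq p hp.1.1))
    by_cases hmS : m ∈ S
    · rw [if_pos hmS]
      have h4 : (S.filter (fun p => p ∣ q * m + h)).filter (fun p => p ∣ h) ⊆ {m} := by
        intro p hp
        rw [mem_singleton]
        exact h2 p hp
      exact_mod_cast (card_le_card h4).trans (card_singleton m).le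
    · rw [if_neg hmS]
      have h4 : (S.filter (fun p => p ∣ q * m + h)).filter (fun p => p ∣ h) = ∅ := by
        rw [eq_empty_iff_forall_notMem]
        intro p hp
        have h5 := h2 p hp
        rw [mem_filter, mem_filter, h5] at hp
        exact hmS hp.1.1
      rw [h4, card_empty, Nat.cast_zero]
  have hlogm : ∀ m ∈ P, 0 ≤ Real.log m ∧ Real.log m ≤ L := by
    intro m hm
    rw [hP, mem_filter, mem_Icc] at hm
    have h1 : (1 : ℝ) ≤ m := by exact_mod_cast hm.1.1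
    refine ⟨Real.log_nonneg h1, ?_⟩
    rw [hL]
    exact Real.log_le_log (by linarith) (by exact_mod_cast hm.1.2)
  have hterm : ∀ m ∈ P, Real.log m * |(((S.filter (fun p => p ∣ q * m + h)).card : ℕ) : ℝ) - W| ≤
      L * |(((S'.filter (fun p => p ∣ q * m + h)).card : ℕ) : ℝ) - W'| + L * (if m ∈ S then 1 else 0) +
        L * (1 / (Y : ℝ) ^ (κ / 2)) := by
    intro m hm
    obtain ⟨l1, l2⟩ := hlogm m hm
    have h1 := hcd m hm
    have h2 : |(((S.filter (fun p => p ∣ q * m + h)).card : ℕ) : ℝ) - W| ≤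
        |(((S'.filter (fun p => p ∣ q * m + h)).card : ℕ) : ℝ) - W'| + (if m ∈ S then 1 else 0) +
          1 / (Y : ℝ) ^ (κ / 2) := by
      have e1 : (((S.filter (fun p => p ∣ q * m + h)).card : ℕ) : ℝ) - W =
          ((((S.filter (fun p => p ∣ q * m + h)).card : ℕ) : ℝ) -
            (((S'.filter (fun p => p ∣ q * m + h)).card : ℕ) : ℝ)) +
          ((((S'.filter (fun p => p ∣ q * m + h)).card : ℕ) : ℝ) - W') - (W - W') := by ring
      rw [e1]
      refine (abs_sub _ _).trans ?_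
      have := abs_add_le ((((S.filter (fun p => p ∣ q * m + h)).card : ℕ) : ℝ) -
            (((S'.filter (fun p => p ∣ q * m + h)).card : ℕ) : ℝ))
          ((((S'.filter (fun p => p ∣ q * m + h)).card : ℕ) : ℝ) - W')
      linarith
    calc Real.log m * |(((S.filter (fun p => p ∣ q * m + h)).card : ℕ) : ℝ) - W| ≤
        L * (|(((S'.filter (fun p => p ∣ q * m + h)).card : ℕ) : ℝ) - W'| + (if m ∈ S then 1 else 0) +
          1 / (Y : ℝ) ^ (κ / 2)) := mul_le_mul l2 h2 (abs_nonneg _) hL0.le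
      _ = _ := by ring
  refine (sum_le_sum hterm).trans ?_
  rw [sum_add_distrib, sum_add_distrib, ← mul_sum, ← mul_sum, sum_const, nsmul_eq_mul, hπc]
  have f1 : L * ∑ m ∈ P, |(((S'.filter (fun p => p ∣ q * m + h)).card : ℕ) : ℝ) - W'| ≤ 4 * Y * Real.sqrt W := by
    calc L * ∑ m ∈ P, |(((S'.filter (fun p => p ∣ q * m + h)).card : ℕ) : ℝ) - W'| ≤
        L * (4 * Y * Real.sqrt W / L) := by gcongr
      _ = _ := by field_simp
  have f2 : L * ∑ m ∈ P, (if m ∈ S then (1 : ℝ) else 0) ≤ Y := by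
    have h1 : ∑ m ∈ P, (if m ∈ S then (1 : ℝ) else 0) ≤ (Y : ℝ) ^ (1 / 5 : ℝ) := by
      rw [← sum_filter, sum_const, nsmul_eq_mul, mul_one]
      have h2 : P.filter (fun m => m ∈ S) ⊆ Icc 1 ⌊(Y : ℝ) ^ (1 / 5 : ℝ)⌋₊ := by
        intro m hm
        rw [mem_filter] at hm
        rw [mem_Icc]
        exact ⟨(hS m hm.2).1.one_lt.le, Nat.le_floor (hS m hm.2).2.2⟩
      have h3 := card_le_card h2
      rw [Nat.card_Icc, Nat.add_sub_cancel] at h3
      exact le_trans (by exact_mod_cast h3) (Nat.floor_le (by positivity))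
    calc L * ∑ m ∈ P, (if m ∈ S then (1 : ℝ) else 0) ≤ (Y : ℝ) ^ (4 / 5 : ℝ) * (Y : ℝ) ^ (1 / 5 : ℝ) :=
          mul_le_mul hL45 h1 (sum_nonneg fun _ _ => by split_ifs <;> norm_num) (by positivity)
      _ = Y := by
          rw [← Real.rpow_add hY0]
          norm_num
  have f3 : π * (L * (1 / (Y : ℝ) ^ (κ / 2))) ≤ Y := by
    calc π * (L * (1 / (Y : ℝ) ^ (κ / 2))) ≤ (2 * Y / L) * (L * (1 / 40)) := by
          gcongr
      _ = Y * (1 / 20) := by
          field_simp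
          ring
      _ ≤ Y := by linarith
  have f4 : 1 ≤ Real.sqrt W := Real.one_le_sqrt.2 hW
  nlinarith

end Pool.Agent.H579.Q
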